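import Mathlib

set_option autoImplicit false

namespace Pool.Agent.H.MP_7dfbfb_co
open Finset Equiv

section
variable {V : Type} [Fintype V] [LinearOrder V]

def Inv (V : Type) [Fintype V] [LinearOrder V] : Finset (Perm V) :=
  univ.filter (fun m => ∀ v, m (m v) = v ∧ m v ≠ v)

def Prs (V : Type) [Fintype V] [LinearOrder V] : Finset (V × V) :=
  univ.filter (fun p => p.1 < p.2)

def key (m : Perm V) (u : V) : V := min u (m u)

def sg (u v : V) : ℤ := if u < v then 1 else if v < u then -1 else 0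

def FF (m : Perm V) (u v : V) : ℤ := if key m u = key m v then sg u v else sg (key m u) (key m v)

def cm (m : Perm V) : ℤ := ∏ p ∈ Prs V, FF m p.1 p.2

def Tm (m : Perm V) : Finset V := univ.filter (fun u => u < m u)

def Pf (A : Matrix V V ℤ) : ℤ := ∑ m ∈ Inv V, cm m * ∏ u ∈ Tm m, A u (m u)

omit [Fintype V] in
lemma sg_skew (u v : V) : sg u v = - sg v u := by
  unfold sg
  rcases lt_trichotomy u v with h | h | h
  · simp [h, not_lt.2 h.le]
  · simp [h]
  · simp [h, not_lt.2 h.le]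

omit [Fintype V] in
lemma sg_sq {u v : V} (h : u ≠ v) : sg u v * sg u v = 1 := by
  unfold sg
  rcases lt_trichotomy u v with h1 | h1 | h1
  · simp [h1]
  · exact absurd h1 h
  · simp [h1, not_lt.2 h1.le]

omit [Fintype V] in
lemma FF_skew (m : Perm V) (u v : V) : FF m u v = - FF m v u := by
  unfold FF
  by_cases h : key m u = key m v
  · rw [if_pos h, if_pos h.symm, sg_skew]
  · rw [if_neg h, if_neg (fun h' => h h'.symm), sg_skew]

omit [Fintype V] in
lemma FF_sq (m : Perm V) {u v : V} (h : u ≠ v) : FF m u v * FF m u v = 1 := by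
  unfold FF
  split_ifs with h1
  · exact sg_sq h
  · exact sg_sq h1

lemma cm_sq (m : Perm V) : cm m * cm m = 1 := by
  unfold cm
  rw [← prod_mul_distrib]
  refine prod_eq_one fun p hp => FF_sq m (ne_of_lt ?_)
  simpa [Prs] using hp

lemma mem_Inv {m : Perm V} : m ∈ Inv V ↔ ∀ v, m (m v) = v ∧ m v ≠ v := by simp [Inv]

omit [Fintype V] in
lemma key_m {m : Perm V} (hm : ∀ v, m (m v) = v ∧ m v ≠ v) (u : V) : key m (m u) = key m u := by
  unfold key; rw [(hm u).1, min_comm]

omit [Fintype V] in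
lemma key_eq {m : Perm V} (hm : ∀ v, m (m v) = v ∧ m v ≠ v) {u v : V}
    (h : key m u = key m v) : v = u ∨ v = m u := by
  unfold key at h
  rcases min_choice u (m u) with h1 | h1 <;> rcases min_choice v (m v) with h2 | h2 <;>
    rw [h1, h2] at h
  · exact Or.inl h.symm
  · right; rw [h, (hm v).1]
  · exact Or.inr h.symm
  · exact Or.inl (m.injective h).symm

lemma prod_Prs_fin {n : ℕ} (g : Fin n → Fin n → ℤ) :
    ∏ p ∈ Prs (Fin n), g p.1 p.2 = ∏ j, ∏ i ∈ Finset.Iio j, g i j := by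
  rw [Finset.prod_sigma']
  refine Finset.prod_bij' (fun p _ => ⟨p.2, p.1⟩) (fun q _ => (q.2, q.1)) ?_ ?_ ?_ ?_ ?_ <;>
    simp [Prs]

lemma prod_Prs_iso {W : Type} [Fintype W] [LinearOrder W] (e : W ≃o V) (g : V → V → ℤ) :
    ∏ p ∈ Prs V, g p.1 p.2 = ∏ p ∈ Prs W, g (e p.1) (e p.2) := by
  refine Finset.prod_bij' (fun p _ => (e.symm p.1, e.symm p.2)) (fun q _ => (e q.1, e q.2))
    ?_ ?_ ?_ ?_ ?_ <;> simp [Prs]

lemma sign_lemma (σ : Perm V) {f : V → V → ℤ} (hf : ∀ u v, f u v = - f v u) :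
    ∏ p ∈ Prs V, f (σ p.1) (σ p.2) = (σ.sign : ℤ) * ∏ p ∈ Prs V, f p.1 p.2 := by
  classical
  let e : Fin (Fintype.card V) ≃o V := monoEquivOfFin V rfl
  rw [prod_Prs_iso e (fun u v => f (σ u) (σ v)), prod_Prs_iso e f,
    prod_Prs_fin (fun i j => f (σ (e i)) (σ (e j))), prod_Prs_fin (fun i j => f (e i) (e j))]
  have h := Equiv.Perm.prod_Iio_comp_eq_sign_mul_prod (R := ℤ) (e.toEquiv.symm.permCongr σ)
    (f := fun i j => f (e i) (e j)) (fun i j => hf _ _)
  rw [Equiv.Perm.sign_permCongr] at h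
  simpa [Equiv.permCongr_apply] using h

lemma prod_split {R : Type} [CommMonoid R] {m : Perm V} (hm : ∀ v, m (m v) = v ∧ m v ≠ v)
    (g : V → R) : ∏ v, g v = ∏ u ∈ Tm m, (g u * g (m u)) := by
  rw [prod_mul_distrib, ← Finset.prod_filter_mul_prod_filter_not univ (fun u => u < m u)]
  congr 1
  refine Finset.prod_bij' (fun v _ => m v) (fun v _ => m v) ?_ ?_ ?_ ?_ ?_
  · intro v hv
    simp only [mem_filter, mem_univ, true_and, not_lt, Tm] at hv ⊢
    rw [(hm v).1]; exact lt_of_le_of_ne hv (hm v).2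
  · intro v hv
    simp only [mem_filter, mem_univ, true_and, not_lt, Tm] at hv ⊢
    rw [(hm v).1]; exact hv.le
  · intro v _; exact (hm v).1
  · intro v _; exact (hm v).1
  · intro v _; rw [(hm v).1]

lemma sum_split {m : Perm V} (hm : ∀ v, m (m v) = v ∧ m v ≠ v)
    (g : V → ℕ) : ∑ v, g v = ∑ u ∈ Tm m, (g u + g (m u)) := by
  have h := prod_split (R := Multiplicative ℕ) hm (fun v => Multiplicative.ofAdd (g v))
  apply Multiplicative.ofAdd.injective
  rw [ofAdd_sum, ofAdd_sum]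
  exact h

lemma conj_inv {ι : Perm V} (hι : ∀ v, ι (ι v) = v ∧ ι v ≠ v) (σ : Perm V) :
    ∀ v, (σ * ι * σ⁻¹) ((σ * ι * σ⁻¹) v) = v ∧ (σ * ι * σ⁻¹) v ≠ v := by
  intro v
  constructor
  · simp [(hι _).1]
  · intro h
    have h2 : ι (σ⁻¹ v) = σ⁻¹ v := by
      apply σ.injective
      simpa using h
    exact (hι _).2 h2

lemma sign_conj {ι : Perm V} (hι : ∀ v, ι (ι v) = v ∧ ι v ≠ v) (σ : Perm V) :
    (σ.sign : ℤ) * cm (σ * ι * σ⁻¹) = cm ι * ∏ t ∈ Tm ι, sg (σ t) (σ (ι t)) := by
  set m := σ * ι * σ⁻¹ with hmdef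
  have hm := conj_inv hι σ
  rw [← hmdef] at hm
  have hms : ∀ u, m (σ u) = σ (ι u) := fun u => by simp [hmdef]
  have h1 := sign_lemma σ (FF_skew m)
  have h2 : ∏ p ∈ Prs V, FF m (σ p.1) (σ p.2) =
      cm ι * ∏ p ∈ Prs V, (FF m (σ p.1) (σ p.2) * FF ι p.1 p.2) := by
    rw [prod_mul_distrib, mul_comm (∏ p ∈ Prs V, FF m (σ p.1) (σ p.2)), ← mul_assoc]
    have := cm_sq ι
    unfold cm at this ⊢
    rw [this, one_mul]
  have h3 : cm m = ∏ p ∈ Prs V, FF m p.1 p.2 := rfl
  rw [h3, ← h1, h2]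
  congr 1
  rw [← Finset.prod_filter_mul_prod_filter_not (Prs V) (fun p => p.2 = ι p.1)]
  have hH : ∀ u v, u ≠ v → v ≠ ι u → FF m (σ (ι u)) (σ (ι v)) * FF ι (ι u) (ι v) =
      FF m (σ u) (σ v) * FF ι u v := by
    intro u v huv hv
    have k1 : key ι u ≠ key ι v := fun h => by
      rcases key_eq hι h with h | h
      · exact huv h.symm
      · exact hv h
    have k2 : key m (σ u) ≠ key m (σ v) := fun h => by
      rcases key_eq hm h with h | h
      · exact huv (σ.injective h).symm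
      · rw [hms] at h; exact hv (σ.injective h)
    unfold FF
    rw [← hms, ← hms, key_m hm, key_m hm, key_m hι, key_m hι, if_neg k1, if_neg k2, if_neg k1,
      if_neg k2]
  have h4 : ∏ p ∈ (Prs V).filter (fun p => ¬ p.2 = ι p.1),
      (FF m (σ p.1) (σ p.2) * FF ι p.1 p.2) = 1 := by
    refine Finset.prod_involution
      (fun p _ => if ι p.1 < ι p.2 then (ι p.1, ι p.2) else (ι p.2, ι p.1)) ?_ ?_ ?_ ?_
    · intro p hp
      simp only [mem_filter, Prs, mem_univ, true_and] at hp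
      have hne : p.1 ≠ p.2 := ne_of_lt hp.1
      have e1 := hH p.1 p.2 hne hp.2
      have s1 := FF_sq m (σ.injective.ne hne)
      have s2 := FF_sq ι hne
      split_ifs with h
      · simp only
        rw [e1]
        linear_combination (FF ι p.1 p.2 * FF ι p.1 p.2) * s1 + s2
      · simp only
        rw [FF_skew m (σ (ι p.2)), FF_skew ι (ι p.2), neg_mul_neg, e1]
        linear_combination (FF ι p.1 p.2 * FF ι p.1 p.2) * s1 + s2
    · intro p hp _
      simp only [mem_filter, Prs, mem_univ, true_and] at hp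
      split_ifs with h
      · intro h'
        exact (hι p.1).2 (congrArg Prod.fst h')
      · intro h'
        exact hp.2 (congrArg Prod.snd h').symm
    · intro p hp
      simp only [mem_filter, Prs, mem_univ, true_and] at hp ⊢
      have hne : ι p.1 ≠ ι p.2 := ι.injective.ne (ne_of_lt hp.1)
      split_ifs with h
      · refine ⟨h, fun h' => hp.2 ?_⟩
        exact ι.injective h'
      · refine ⟨lt_of_le_of_ne (not_lt.1 h) hne.symm, fun h' => hp.2 ?_⟩
        simp only at h'
        rw [h', (hι _).1]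
    · intro p hp
      simp only [mem_filter, Prs, mem_univ, true_and] at hp
      by_cases h : ι p.1 < ι p.2
      · simp [h, (hι _).1, hp.1]
      · simp [h, (hι _).1, not_lt.2 hp.1.le]
  rw [h4, mul_one]
  refine Finset.prod_bij' (fun p _ => p.1) (fun t _ => (t, ι t)) ?_ ?_ ?_ ?_ ?_
  · intro p hp
    simp only [mem_filter, Prs, mem_univ, true_and, Tm] at hp ⊢
    rw [← hp.2]; exact hp.1
  · intro t ht
    simpa [Prs, Tm] using ht
  · intro p hp
    simp only [mem_filter] at hp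
    rw [← hp.2]
  · intro t _; rfl
  · intro p hp
    simp only [mem_filter, Prs, mem_univ, true_and] at hp
    unfold FF
    rw [hp.2, ← hms, key_m hm, key_m hι, if_pos rfl, if_pos rfl]
    have : sg p.1 (ι p.1) = 1 := by unfold sg; rw [if_pos (hp.2 ▸ hp.1)]
    rw [this, mul_one]

lemma prod_conj {R : Type} [CommMonoid R] {ι : Perm V} (hι : ∀ v, ι (ι v) = v ∧ ι v ≠ v)
    (σ : Perm V) (g : V → V → R) (hg : ∀ u v, g u v = g v u) :
    ∏ t ∈ Tm ι, g (σ t) (σ (ι t)) =
      ∏ u ∈ Tm (σ * ι * σ⁻¹), g u ((σ * ι * σ⁻¹) u) := by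
  set m := σ * ι * σ⁻¹ with hmdef
  have hm := conj_inv hι σ
  rw [← hmdef] at hm
  have hms : ∀ u, m (σ u) = σ (ι u) := fun u => by simp [hmdef]
  refine Finset.prod_bij (fun t _ => key m (σ t)) ?_ ?_ ?_ ?_
  · intro t _
    simp only [Tm, mem_filter, mem_univ, true_and, key]
    rcases lt_trichotomy (σ t) (m (σ t)) with h | h | h
    · rw [min_eq_left h.le]; exact h
    · exact absurd h.symm (hm _).2
    · rw [min_eq_right h.le, (hm _).1]; exact h
  · intro t ht t' ht' h
    simp only [Tm, mem_filter, mem_univ, true_and] at ht ht'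
    rcases key_eq hm h with h1 | h1
    · exact (σ.injective h1).symm
    · rw [hms] at h1
      have h2 := σ.injective h1
      rw [h2, (hι _).1] at ht'
      exact absurd (ht.trans ht') (lt_irrefl _)
  · intro u hu
    simp only [Tm, mem_filter, mem_univ, true_and] at hu
    rcases lt_trichotomy (σ⁻¹ u) (ι (σ⁻¹ u)) with h | h | h
    · refine ⟨σ⁻¹ u, by simpa [Tm] using h, ?_⟩
      simp [key, hu.le]
    · exact absurd h.symm (hι _).2
    · refine ⟨ι (σ⁻¹ u), by simpa [Tm, (hι _).1] using h, ?_⟩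
      rw [← hms, key_m hm]
      simp [key, hu.le]
  · intro t _
    unfold key
    rcases min_choice (σ t) (m (σ t)) with h | h <;> rw [h]
    · rw [hms]
    · rw [(hm _).1, hms, hg]

def PP (ι : Perm V) (A : Matrix V V ℤ) : ℤ :=
  ∑ σ : Perm V, (σ.sign : ℤ) * ∏ t ∈ Tm ι, A (σ t) (σ (ι t))

lemma term_eq {ι : Perm V} (hι : ∀ v, ι (ι v) = v ∧ ι v ≠ v) (σ : Perm V) {A : Matrix V V ℤ}
    (hA : ∀ u v, A u v = - A v u) :
    (σ.sign : ℤ) * ∏ t ∈ Tm ι, A (σ t) (σ (ι t)) =
      cm ι * (cm (σ * ι * σ⁻¹) * ∏ u ∈ Tm (σ * ι * σ⁻¹), A u ((σ * ι * σ⁻¹) u)) := by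
  have h1 := sign_conj hι σ
  have h2 := prod_conj hι σ (fun u v => sg u v * A u v)
    (fun u v => by rw [sg_skew u v, hA u v]; ring)
  have h3 : ∏ u ∈ Tm (σ * ι * σ⁻¹), (sg u ((σ * ι * σ⁻¹) u) * A u ((σ * ι * σ⁻¹) u)) =
      ∏ u ∈ Tm (σ * ι * σ⁻¹), A u ((σ * ι * σ⁻¹) u) := by
    refine prod_congr rfl fun u hu => ?_
    simp only [Tm, mem_filter, mem_univ, true_and] at hu
    unfold sg; rw [if_pos hu, one_mul]
  rw [h3, prod_mul_distrib] at h2
  rw [← h2]
  have h4 := cm_sq (σ * ι * σ⁻¹)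
  have h5 := cm_sq ι
  have h6 : (∏ t ∈ Tm ι, sg (σ t) (σ (ι t))) * ∏ t ∈ Tm ι, sg (σ t) (σ (ι t)) = 1 := by
    rw [← prod_mul_distrib]
    exact prod_eq_one fun t _ => sg_sq (σ.injective.ne (hι t).2.symm)
  set a := cm (σ * ι * σ⁻¹)
  set b := cm ι
  set c := ∏ t ∈ Tm ι, sg (σ t) (σ (ι t))
  set d := ∏ t ∈ Tm ι, A (σ t) (σ (ι t))
  have h7 : (σ.sign : ℤ) = b * c * a := by
    linear_combination a * h1 - (σ.sign : ℤ) * h4
  rw [h7]; ring

lemma exists_conj {ι m : Perm V} (hι : ∀ v, ι (ι v) = v ∧ ι v ≠ v)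
    (hm : ∀ v, m (m v) = v ∧ m v ≠ v) : ∃ τ : Perm V, τ * ι * τ⁻¹ = m := by
  have : Fact (Nat.Prime 2) := ⟨Nat.prime_two⟩
  have aux : ∀ g : Perm V, (∀ v, g (g v) = v ∧ g v ≠ v) →
      g.cycleType = Multiset.replicate (Fintype.card V / 2) 2 := by
    intro g hg
    have h1 : g ^ 2 = 1 := by ext v; simp [pow_two, (hg v).1]
    have h2 := Equiv.Perm.cycleType_of_pow_prime_eq_one h1
    have h3 := Equiv.Perm.sum_cycleType g
    have h4 : g.support = univ := by ext v; simp [(hg v).2]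
    rw [h4, card_univ, h2, Multiset.sum_replicate, smul_eq_mul] at h3
    rw [h2, ← h3]; simp
  have : IsConj ι m := Equiv.Perm.isConj_iff_cycleType_eq.2 (by rw [aux ι hι, aux m hm])
  exact isConj_iff.1 this

lemma PP_eq {ι : Perm V} (hι : ∀ v, ι (ι v) = v ∧ ι v ≠ v) :
    ∃ C : ℤ, C ≠ 0 ∧ ∀ A : Matrix V V ℤ, (∀ u v, A u v = - A v u) → PP ι A = C * Pf A := by
  classical
  let c : ℕ := (univ.filter (fun σ : Perm V => σ * ι * σ⁻¹ = ι)).card
  have hc : c ≠ 0 := card_ne_zero.2 ⟨1, by simp⟩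
  have hι2 : cm ι ≠ 0 := fun h => by have := cm_sq ι; rw [h] at this; simp at this
  refine ⟨cm ι * c, mul_ne_zero hι2 (by exact_mod_cast hc), fun A hA => ?_⟩
  unfold PP Pf
  rw [← Finset.sum_fiberwise_of_maps_to (t := Inv V) (g := fun σ : Perm V => σ * ι * σ⁻¹)
    (fun σ _ => mem_Inv.2 (conj_inv hι σ)), mul_sum]
  refine sum_congr rfl fun m hm => ?_
  obtain ⟨τ, hτ⟩ := exists_conj hι (mem_Inv.1 hm)
  have hcard : (univ.filter (fun σ : Perm V => σ * ι * σ⁻¹ = m)).card = c := by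
    refine Finset.card_bij' (fun σ _ => τ⁻¹ * σ) (fun σ _ => τ * σ) ?_ ?_ ?_ ?_
    · intro σ hσ
      simp only [mem_filter, mem_univ, true_and] at hσ ⊢
      calc τ⁻¹ * σ * ι * (τ⁻¹ * σ)⁻¹ = τ⁻¹ * (σ * ι * σ⁻¹) * τ := by group
        _ = ι := by rw [hσ, ← hτ]; group
    · intro σ hσ
      simp only [mem_filter, mem_univ, true_and] at hσ ⊢
      calc τ * σ * ι * (τ * σ)⁻¹ = τ * (σ * ι * σ⁻¹) * τ⁻¹ := by group
        _ = m := by rw [hσ, hτ]
    · intro σ _; group
    · intro σ _; group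
  rw [Finset.sum_congr rfl (g := fun _ => cm ι * (cm m * ∏ u ∈ Tm m, A u (m u)))]
  · rw [sum_const, hcard, nsmul_eq_mul]; ring
  · intro σ hσ
    simp only [mem_filter, mem_univ, true_and] at hσ
    rw [term_eq hι σ hA, hσ]

lemma PP_mul {ι : Perm V} (hι : ∀ v, ι (ι v) = v ∧ ι v ≠ v) (A B : Matrix V V ℤ) :
    PP ι (B.transpose * A * B) = B.det * PP ι A := by
  classical
  have key1 : ∀ σ : Perm V, ∏ t ∈ Tm ι, (B.transpose * A * B) (σ t) (σ (ι t)) =
      ∑ f : V → V, (∏ t ∈ Tm ι, A (f t) (f (ι t))) * ∏ v, B (f v) (σ v) := by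
    intro σ
    have e1 : ∀ t, (B.transpose * A * B) (σ t) (σ (ι t)) =
        ∑ q : V × V, A q.1 q.2 * (B q.1 (σ t) * B q.2 (σ (ι t))) := by
      intro t
      rw [Fintype.sum_prod_type_right]
      simp only [Matrix.mul_apply, Matrix.transpose_apply, sum_mul]
      refine sum_congr rfl fun k _ => sum_congr rfl fun l _ => by ring
    simp only [e1]
    rw [← Finset.prod_coe_sort (Tm ι), Finset.prod_univ_sum, Fintype.piFinset_univ]
    symm
    refine Finset.sum_bij' (fun f _ => fun t => (f t.1, f (ι t.1)))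
      (fun φ _ => fun v => if h : v ∈ Tm ι then (φ ⟨v, h⟩).1 else
        if h' : ι v ∈ Tm ι then (φ ⟨ι v, h'⟩).2 else v) ?_ ?_ ?_ ?_ ?_
    · intro _ _; exact mem_univ _
    · intro _ _; exact mem_univ _
    · intro f _
      funext v
      by_cases h : v ∈ Tm ι
      · simp [h]
      · have h' : ι v ∈ Tm ι := by
          simp only [Tm, mem_filter, mem_univ, true_and, not_lt] at h ⊢
          rw [(hι v).1]; exact lt_of_le_of_ne h (hι v).2
        simp [h, h', (hι v).1]
    · intro φ _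
      funext t
      have h : ι t.1 ∉ Tm ι := by
        have := t.2
        simp only [Tm, mem_filter, mem_univ, true_and, not_lt] at this ⊢
        rw [(hι _).1]; exact this.le
      have h' : ι (ι t.1) ∈ Tm ι := by rw [(hι _).1]; exact t.2
      simp only [dif_pos t.2, dif_neg h, dif_pos h']
      ext
      · rfl
      · simp only
        congr 2
        exact Subtype.ext (hι _).1
    · intro f _
      rw [prod_split hι (fun v => B (f v) (σ v)), ← prod_mul_distrib,
        ← Finset.prod_coe_sort (Tm ι)]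
  unfold PP
  simp only [key1, mul_sum]
  rw [sum_comm]
  have key2 : ∀ f : V → V, ∑ σ : Perm V, (σ.sign : ℤ) *
      ((∏ t ∈ Tm ι, A (f t) (f (ι t))) * ∏ v, B (f v) (σ v)) =
      (∏ t ∈ Tm ι, A (f t) (f (ι t))) * (B.submatrix f id).det := by
    intro f
    rw [← Matrix.det_transpose, Matrix.det_apply', mul_sum]
    refine sum_congr rfl fun σ _ => ?_
    simp only [Matrix.transpose_apply, Matrix.submatrix_apply, id]
    push_cast; ring
  simp only [key2]
  rw [← Finset.sum_filter_add_sum_filter_not univ (fun f : V → V => Function.Bijective f)]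
  rw [Finset.sum_eq_zero (s := univ.filter (fun f : V → V => ¬ Function.Bijective f)), add_zero]
  · symm
    refine Finset.sum_bij (fun (σ : Perm V) _ => (σ : V → V)) ?_ ?_ ?_ ?_
    · intro σ _; simp
    · intro σ _ τ _ h; exact Equiv.coe_fn_injective h
    · intro f hf
      simp only [mem_filter, mem_univ, true_and] at hf
      exact ⟨Equiv.ofBijective f hf, mem_univ _, rfl⟩
    · intro σ _
      rw [Matrix.det_permute]
      push_cast; ring
  · intro f hf
    simp only [mem_filter, mem_univ, true_and] at hf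
    have : ¬ Function.Injective f := fun h => hf (Finite.injective_iff_bijective.1 h)
    unfold Function.Injective at this
    push Not at this
    obtain ⟨a, b, hab, hne⟩ := this
    rw [Matrix.det_zero_of_row_eq hne (by ext j; simp [hab]), mul_zero]

theorem Pf_mul (A B : Matrix V V ℤ) (hA : ∀ u v, A u v = - A v u) :
    Pf (B.transpose * A * B) = B.det * Pf A := by
  by_cases h : (Inv V).Nonempty
  · obtain ⟨ι, hι⟩ := h
    have hι' := mem_Inv.1 hι
    obtain ⟨C, hC, hP⟩ := PP_eq hι'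
    have h1 := PP_mul hι' A B
    have hAt : A.transpose = -A := by ext u v; simp [hA v u]
    have h2 : ∀ u v, (B.transpose * A * B) u v = - (B.transpose * A * B) v u := by
      intro u v
      have : (B.transpose * A * B).transpose = - (B.transpose * A * B) := by
        simp [Matrix.transpose_mul, hAt, Matrix.mul_assoc]
      have h3 := congrFun (congrFun this v) u
      simpa using h3
    rw [hP _ h2, hP _ hA] at h1
    apply mul_left_cancel₀ hC
    rw [h1]; ring
  · unfold Pf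
    rw [not_nonempty_iff_eq_empty.1 h]; simp

lemma det_two (Z : Matrix V V (ZMod 2)) (hs : ∀ u v, Z u v = Z v u) (hd : ∀ u, Z u u = 0) :
    Z.det = ∑ m ∈ Inv V, ∏ u ∈ Tm m, Z u (m u) := by
  classical
  rw [Matrix.det_apply']
  have h1 : ∀ σ : Perm V, ((σ.sign : ℤ) : ZMod 2) = 1 := by
    intro σ
    rcases Int.units_eq_one_or σ.sign with h | h <;> rw [h] <;> decide
  simp only [h1, one_mul]
  rw [← Finset.sum_filter_add_sum_filter_not univ (fun σ : Perm V => σ⁻¹ = σ)]
  rw [Finset.sum_involution (s := univ.filter (fun σ : Perm V => ¬ σ⁻¹ = σ)) (fun σ _ => σ⁻¹),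
    add_zero]
  · rw [← Finset.sum_subset (s₁ := Inv V) (s₂ := univ.filter (fun σ : Perm V => σ⁻¹ = σ))]
    · refine sum_congr rfl fun m hm => ?_
      have hm' := mem_Inv.1 hm
      rw [prod_split hm' (fun v => Z (m v) v)]
      refine prod_congr rfl fun u _ => ?_
      rw [(hm' u).1, hs (m u) u]
      generalize Z u (m u) = x
      revert x; decide
    · intro m hm
      have hm' := mem_Inv.1 hm
      simp only [mem_filter, mem_univ, true_and]
      ext v
      rw [Equiv.Perm.inv_eq_iff_eq, (hm' v).1]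
    · intro m hm hm2
      simp only [mem_filter, mem_univ, true_and] at hm
      rw [mem_Inv] at hm2
      push Not at hm2
      obtain ⟨v, hv⟩ := hm2
      have : m (m v) = v := by
        nth_rewrite 1 [← hm]; simp
      exact prod_eq_zero (mem_univ v) (by rw [hv this, hd])
  · intro σ _
    have : ∏ v, Z (σ⁻¹ v) v = ∏ v, Z (σ v) v := by
      rw [← Equiv.prod_comp σ (fun v => Z (σ⁻¹ v) v)]
      exact prod_congr rfl fun v _ => by simp [hs v]
    rw [this]
    exact CharTwo.add_self_eq_zero _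
  · intro σ hσ _
    simpa using hσ
  · intro σ hσ
    simp only [mem_filter, mem_univ, true_and, inv_inv] at hσ ⊢
    exact fun h => hσ h.symm
  · intro σ _; simp

end
end Pool.Agent.H.MP_7dfbfb_co
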