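import Pool.Agent.H.MP_7dfbfb_co.A

set_option autoImplicit false

namespace Pool.Agent.H.MP_7dfbfb_co
open Finset Equiv Matrix

section
variable {V : Type} [Fintype V] [LinearOrder V]

lemma adapted (W : Submodule (ZMod 2) (V → ZMod 2)) :
    ∃ (M : Matrix V V (ZMod 2)) (S : Finset V), S.card = Module.finrank (ZMod 2) W ∧
      (∀ y, M *ᵥ y = 0 → y = 0) ∧ (∀ s ∈ S, (fun i => M i s) ∈ W) ∧
      (∀ y, (∀ s ∈ S, y s = 0) → M *ᵥ y ∈ W → y = 0) := by
  classical
  have : Fact (Nat.Prime 2) := ⟨Nat.prime_two⟩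
  obtain ⟨W', hW⟩ := Submodule.exists_isCompl W
  let b1 := Module.finBasis (ZMod 2) W
  let b2 := Module.finBasis (ZMod 2) W'
  let b0 := (b1.prod b2).map (Submodule.prodEquivOfIsCompl W W' hW)
  have hcard : Fintype.card V =
      Fintype.card (Fin (Module.finrank (ZMod 2) W) ⊕ Fin (Module.finrank (ZMod 2) W')) := by
    rw [← Module.finrank_eq_card_basis b0]; simp
  let e := Fintype.equivOfCardEq hcard
  let b := b0.reindex e.symm
  have hb : ∀ v, b v = b0 (e v) := fun v => by simp [b]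
  have hl : ∀ i, b0 (Sum.inl i) ∈ W := fun i => by
    simp [b0, Submodule.coe_prodEquivOfIsCompl']
  have hr : ∀ i, b0 (Sum.inr i) ∈ W' := fun i => by
    simp [b0, Submodule.coe_prodEquivOfIsCompl']
  let M : Matrix V V (ZMod 2) := fun i j => b j i
  have hM : ∀ y, M *ᵥ y = ∑ j, y j • b j := fun y => by
    ext i; simp [M, mulVec, dotProduct, mul_comm]
  have hinj : ∀ y, M *ᵥ y = 0 → y = 0 := fun y hy => by
    rw [hM] at hy
    funext j
    exact Fintype.linearIndependent_iff.1 b.linearIndependent y hy j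
  refine ⟨M, univ.filter (fun v => (e v).isLeft), ?_, hinj, ?_, ?_⟩
  · refine Eq.trans ?_ (Finset.card_fin (Module.finrank (ZMod 2) W))
    symm
    refine Finset.card_bij (fun i _ => e.symm (Sum.inl i)) ?_ ?_ ?_
    · intro i _; simp
    · intro i _ j _ h; simpa using h
    · intro v hv
      simp only [mem_filter, mem_univ, true_and] at hv
      obtain ⟨i, hi⟩ := Sum.isLeft_iff.1 hv
      exact ⟨i, mem_univ _, by rw [← hi]; simp⟩
  · intro s hs
    simp only [mem_filter, mem_univ, true_and] at hs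
    obtain ⟨i, hi⟩ := Sum.isLeft_iff.1 hs
    have : (fun i => M i s) = b s := rfl
    rw [this, hb, hi]; exact hl i
  · intro y hy hyW
    apply hinj
    have h2 : M *ᵥ y ∈ W' := by
      rw [hM]
      refine Submodule.sum_mem _ fun j _ => ?_
      rcases h : e j with i | i
      · rw [hy j (by simp [h]), zero_smul]; exact W'.zero_mem
      · rw [hb, h]; exact W'.smul_mem _ (hr i)
    exact (Submodule.disjoint_def.1 hW.disjoint) _ hyW h2

lemma cast_val (x : ZMod 2) : (((x.val : ℕ) : ℤ) : ZMod 2) = x := by simp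

lemma sq_one_two : ∀ x : ZMod 2, x * x = 1 → x = 1 := by decide

lemma two_dvd_iff (x : ℤ) : (2 : ℤ) ∣ x ↔ (x : ZMod 2) = 0 := by
  rw [ZMod.intCast_zmod_eq_zero_iff_dvd]; rfl

omit [LinearOrder V] in
lemma cast_mulVec (A : Matrix V V ℤ) (x : V → ℤ) (i : V) :
    (((A *ᵥ x) i : ℤ) : ZMod 2) =
      (A.map (Int.cast : ℤ → ZMod 2) *ᵥ (fun j => (x j : ZMod 2))) i := by
  simp [mulVec, dotProduct]

lemma split_term (A A' : Matrix V V ℤ) (S : Finset V) (r : ℕ) (hS : S.card = 2 * r)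
    (hA : ∀ u v, A u v = (if u ∈ S ∨ v ∈ S then 2 else 1) * A' u v) {m : Perm V}
    (hm : ∀ v, m (m v) = v ∧ m v ≠ v) :
    ∃ w : ℤ, ∏ u ∈ Tm m, A u (m u) = 2 ^ r * w ∧ (w : ZMod 2) =
      ∏ u ∈ Tm m, (if (u ∈ S ↔ m u ∈ S) then (A' u (m u) : ZMod 2) else 0) := by
  classical
  have h1 : ∏ u ∈ Tm m, A u (m u) =
      2 ^ (∑ u ∈ Tm m, if u ∈ S ∨ m u ∈ S then 1 else 0) * ∏ u ∈ Tm m, A' u (m u) := by
    rw [← prod_pow_eq_pow_sum, ← prod_mul_distrib]
    refine prod_congr rfl fun u _ => ?_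
    rw [hA]; split_ifs <;> simp
  have h2 := sum_split hm (fun v => if v ∈ S then (1 : ℕ) else 0)
  have h3 : ∑ v, (if v ∈ S then (1 : ℕ) else 0) = 2 * r := by
    rw [← hS]; simp
  have h4 : 2 * (∑ u ∈ Tm m, if u ∈ S ∨ m u ∈ S then 1 else 0) =
      2 * r + ∑ u ∈ Tm m, if (u ∈ S ↔ m u ∈ S) then 0 else 1 := by
    rw [← h3, h2, mul_sum, ← sum_add_distrib]
    refine sum_congr rfl fun u _ => ?_
    by_cases a : u ∈ S <;> by_cases b : m u ∈ S <;> simp [a, b]
  by_cases h : ∀ u ∈ Tm m, (u ∈ S ↔ m u ∈ S)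
  · have h5 : (∑ u ∈ Tm m, if (u ∈ S ↔ m u ∈ S) then 0 else 1) = 0 :=
      sum_eq_zero fun u hu => if_pos (h u hu)
    have h6 : (∑ u ∈ Tm m, if u ∈ S ∨ m u ∈ S then 1 else 0) = r := by omega
    refine ⟨_, by rw [h1, h6], ?_⟩
    push_cast
    exact prod_congr rfl fun u hu => by rw [if_pos (h u hu)]
  · push Not at h
    obtain ⟨u, hu, hu2⟩ := h
    have hu3 : ¬ (u ∈ S ↔ m u ∈ S) := by tauto
    have h5 : 1 ≤ ∑ u ∈ Tm m, if (u ∈ S ↔ m u ∈ S) then 0 else 1 := by
      refine le_trans ?_ (single_le_sum (f := fun u => if (u ∈ S ↔ m u ∈ S) then 0 else 1)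
        (fun _ _ => Nat.zero_le _) hu)
      simp only [if_neg hu3, le_refl]
    obtain ⟨k, hk⟩ : ∃ k, (∑ u ∈ Tm m, if u ∈ S ∨ m u ∈ S then 1 else 0) = r + (k + 1) :=
      ⟨(∑ u ∈ Tm m, if u ∈ S ∨ m u ∈ S then 1 else 0) - r - 1, by omega⟩
    refine ⟨2 ^ (k + 1) * ∏ u ∈ Tm m, A' u (m u), by rw [h1, hk]; ring, ?_⟩
    rw [prod_eq_zero (f := fun u => if (u ∈ S ↔ m u ∈ S) then (A' u (m u) : ZMod 2) else 0) hu
      (if_neg hu3)]
    push_cast
    have : (2 : ZMod 2) = 0 := rfl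
    rw [this]; simp

theorem val_Pf (K : Matrix V V ℤ) (hK : ∀ u v, K u v = - K v u) (r : ℕ)
    (hdim : Module.finrank (ZMod 2)
      (LinearMap.ker (Matrix.mulVecLin (K.map (Int.cast : ℤ → ZMod 2)))) = 2 * r)
    (h4 : ∀ x : V → ℤ, (∀ v, (4 : ℤ) ∣ (K *ᵥ x) v) → ∀ v, (2 : ℤ) ∣ x v) :
    ∃ c : ℤ, Odd c ∧ Pf K = 2 ^ r * c := by
  classical
  have : Fact (Nat.Prime 2) := ⟨Nat.prime_two⟩
  obtain ⟨M, S, hS, hinj, hW, hW'⟩ :=
    adapted (LinearMap.ker (Matrix.mulVecLin (K.map (Int.cast : ℤ → ZMod 2))))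
  rw [hdim] at hS
  set Kb := K.map (Int.cast : ℤ → ZMod 2) with hKb
  let B : Matrix V V ℤ := fun i j => ((M i j).val : ℕ)
  have hB : B.map (Int.cast : ℤ → ZMod 2) = M := by ext i j; exact cast_val _
  have hMdet : M.det ≠ 0 := fun h => by
    obtain ⟨v, hv, hv2⟩ := Matrix.exists_mulVec_eq_zero_iff.2 h
    exact hv (hinj v hv2)
  have hBodd : Odd B.det := by
    rw [← Int.not_even_iff_odd, even_iff_two_dvd, two_dvd_iff]
    intro h
    apply hMdet
    rw [← hB, ← h]
    exact ((Int.castRingHom (ZMod 2)).map_det B).symm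
  have hinjT : ∀ y, M.transpose *ᵥ y = 0 → y = 0 := fun y hy => by
    by_contra h
    exact hMdet (by rw [← det_transpose]; exact Matrix.exists_mulVec_eq_zero_iff.1 ⟨y, h, hy⟩)
  set A := B.transpose * K * B with hAdef
  have hAb : A.map (Int.cast : ℤ → ZMod 2) = M.transpose * Kb * M := by
    have h1 := Matrix.map_mul (L := B.transpose * K) (M := B) (f := Int.castRingHom (ZMod 2))
    have h2 := Matrix.map_mul (L := B.transpose) (M := K) (f := Int.castRingHom (ZMod 2))
    rw [← hB, hKb, ← Matrix.transpose_map]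
    rw [h2] at h1
    exact h1
  have hskew : ∀ u v, A u v = - A v u := by
    intro u v
    have hKt : K.transpose = -K := by ext u v; simp [hK v u]
    have : A.transpose = - A := by
      simp [hAdef, Matrix.transpose_mul, hKt, Matrix.mul_assoc]
    have h3 := congrFun (congrFun this v) u
    simpa using h3
  have hev : ∀ u, ∀ s ∈ S, (2 : ℤ) ∣ A u s := by
    intro u s hs
    rw [two_dvd_iff]
    have h1 : Kb *ᵥ (fun i => M i s) = 0 := hW s hs
    have h2 : (A u s : ZMod 2) = (M.transpose * Kb * M) u s := by rw [← hAb]; rfl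
    rw [h2, Matrix.mul_assoc, Matrix.mul_apply]
    refine sum_eq_zero fun j _ => ?_
    have : (Kb * M) j s = (Kb *ᵥ (fun i => M i s)) j := rfl
    rw [this, h1]; simp
  have hev' : ∀ u v, u ∈ S ∨ v ∈ S → (2 : ℤ) ∣ A u v := by
    rintro u v (h | h)
    · rw [hskew]; exact (hev v u h).neg_right
    · exact hev u v h
  let A' : Matrix V V ℤ := fun u v => if u ∈ S ∨ v ∈ S then A u v / 2 else A u v
  have hA' : ∀ u v, A u v = (if u ∈ S ∨ v ∈ S then 2 else 1) * A' u v := by
    intro u v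
    simp only [A']
    split_ifs with h
    · exact (Int.mul_ediv_cancel' (hev' u v h)).symm
    · simp
  have hA's : ∀ u v, A' u v = - A' v u := by
    intro u v
    have h1 := hA' u v
    have h2 := hA' v u
    have h3 := hskew u v
    by_cases h : u ∈ S ∨ v ∈ S
    · rw [if_pos h] at h1; rw [if_pos h.symm] at h2; omega
    · rw [if_neg h] at h1; rw [if_neg (fun h' => h h'.symm)] at h2; omega
  let Z : Matrix V V (ZMod 2) := fun u v => if (u ∈ S ↔ v ∈ S) then (A' u v : ZMod 2) else 0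
  have hZs : ∀ u v, Z u v = Z v u := by
    intro u v
    simp only [Z]
    rw [hA's u v]
    by_cases h : (u ∈ S ↔ v ∈ S)
    · rw [if_pos h, if_pos h.symm]; push_cast; exact CharTwo.neg_eq _
    · rw [if_neg h, if_neg (fun h' => h h'.symm)]
  have hZd : ∀ u, Z u u = 0 := by
    intro u
    have := hA's u u
    have h0 : A' u u = 0 := by omega
    simp [Z, h0]
  let Ab := A.map (Int.cast : ℤ → ZMod 2)
  have hAb0 : ∀ u v, u ∈ S ∨ v ∈ S → Ab u v = 0 := fun u v h => (two_dvd_iff _).1 (hev' u v h)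
  have hrow : ∀ (t : V → ZMod 2), ∀ i ∈ S, (Ab *ᵥ t) i = 0 := fun t i hi =>
    sum_eq_zero fun j _ => mul_eq_zero_of_left (hAb0 i j (Or.inl hi)) _
  have hU : ∀ t : V → ZMod 2, (∀ s ∈ S, t s = 0) → Ab *ᵥ t = 0 → t = 0 := by
    intro t ht h0
    apply hW' t ht
    have h1 : M.transpose *ᵥ (Kb *ᵥ (M *ᵥ t)) = 0 := by
      rw [mulVec_mulVec, mulVec_mulVec, ← hAb]; exact h0
    exact hinjT _ h1
  let Φ : (V → ZMod 2) →ₗ[ZMod 2] (V → ZMod 2) :=
    Matrix.mulVecLin (Ab + Matrix.diagonal (fun u => if u ∈ S then 1 else 0))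
  have hΦ : ∀ t i, Φ t i = if i ∈ S then t i else (Ab *ᵥ t) i := by
    intro t i
    simp only [Φ, mulVecLin_apply, add_mulVec, Pi.add_apply, mulVec_diagonal]
    split_ifs with h
    · have : (Ab *ᵥ t) i = 0 := hrow t i h
      rw [this]; simp
    · simp
  have hΦinj : Function.Injective Φ := by
    rw [← LinearMap.ker_eq_bot, LinearMap.ker_eq_bot']
    intro t ht
    have h1 : ∀ s ∈ S, t s = 0 := fun s hs => by
      have := hΦ t s; rw [ht, if_pos hs] at this; exact this.symm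
    refine hU t h1 (funext fun i => ?_)
    by_cases h : i ∈ S
    · exact hrow _ i h
    · have := hΦ t i; rw [ht, if_neg h] at this; exact this.symm
  have hΦsurj : Function.Surjective Φ := Finite.injective_iff_surjective.1 hΦinj
  have hZdet : Z.det ≠ 0 := by
    intro h
    obtain ⟨z, hz, hz0⟩ := Matrix.exists_mulVec_eq_zero_iff.2 h
    have hz1 : (fun j => if j ∈ S then 0 else z j) = 0 := by
      refine hU _ (fun s hs => if_pos hs) (funext fun i => ?_)
      by_cases hi : i ∈ S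
      · exact hrow _ i hi
      · rw [← congrFun hz0 i]
        refine sum_congr rfl fun j _ => ?_
        by_cases hj : j ∈ S
        · simp [Z, hi, hj]
        · simp [Z, hi, hj, A', Ab]
    have hzS : ∀ j, j ∉ S → z j = 0 := fun j hj => by
      have := congrFun hz1 j; rwa [if_neg hj] at this
    let zt : V → ℤ := fun j => ((z j).val : ℕ)
    have hAz : ∀ i, (A *ᵥ zt) i = 2 * (A' *ᵥ zt) i := by
      intro i
      simp only [mulVec, dotProduct, mul_sum]
      refine sum_congr rfl fun j _ => ?_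
      by_cases hj : j ∈ S
      · rw [hA' i j, if_pos (Or.inr hj)]; ring
      · simp [zt, hzS j hj]
    obtain ⟨t, ht⟩ := hΦsurj (fun i => if i ∈ S then 0 else (((A' *ᵥ zt) i : ℤ) : ZMod 2))
    let tt : V → ℤ := fun j => ((t j).val : ℕ)
    have hy : ∀ i, (4 : ℤ) ∣ (A *ᵥ (zt - (2 : ℤ) • tt)) i := by
      intro i
      have h1 : (A *ᵥ (zt - (2 : ℤ) • tt)) i = 2 * ((A' *ᵥ zt) i - (A *ᵥ tt) i) := by
        rw [mulVec_sub, mulVec_smul, Pi.sub_apply, hAz, Pi.smul_apply, smul_eq_mul]; ring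
      have h2 : (2 : ℤ) ∣ (A' *ᵥ zt) i - (A *ᵥ tt) i := by
        rw [two_dvd_iff, Int.cast_sub, cast_mulVec A tt]
        have h3 : (fun j => (tt j : ZMod 2)) = t := funext fun j => cast_val _
        rw [h3]
        have h5 := hΦ t i
        rw [ht] at h5
        by_cases hi : i ∈ S
        · have h6 : (Ab *ᵥ t) i = 0 :=
            hrow t i hi
          have h7 : (((A' *ᵥ zt) i : ℤ) : ZMod 2) = (Z *ᵥ z) i := by
            rw [cast_mulVec]
            refine sum_congr rfl fun j _ => ?_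
            by_cases hj : j ∈ S
            · simp [Z, hi, hj, zt]
            · simp [zt, hzS j hj]
          rw [h7, hz0]
          change (0 : ZMod 2) - (Ab *ᵥ t) i = 0
          rw [h6, sub_zero]
        · simp only [if_neg hi] at h5
          rw [h5]; exact sub_self _
      obtain ⟨c, hc⟩ := h2
      exact ⟨c, by rw [h1, hc]; ring⟩
    set y := zt - (2 : ℤ) • tt with hydef
    have hq : ∀ v, (4 : ℤ) ∣ (K *ᵥ (B *ᵥ y)) v := by
      intro v
      have h1 : B.transpose.adjugate *ᵥ (A *ᵥ y) = B.det • (K *ᵥ (B *ᵥ y)) := by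
        rw [hAdef, ← mulVec_mulVec, ← mulVec_mulVec, mulVec_mulVec _ B.transpose.adjugate,
          adjugate_mul, det_transpose, smul_mulVec, one_mulVec]
      have h2 : (4 : ℤ) ∣ (B.transpose.adjugate *ᵥ (A *ᵥ y)) v :=
        dvd_sum fun j _ => (hy j).mul_left _
      rw [h1, Pi.smul_apply, smul_eq_mul] at h2
      have h3 : IsCoprime (4 : ℤ) B.det := by
        have : IsCoprime (2 : ℤ) B.det := by
          obtain ⟨k, hk⟩ := hBodd
          exact ⟨-k, 1, by rw [hk]; ring⟩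
        simpa using this.mul_left this
      exact h3.dvd_of_dvd_mul_left h2
    have h5 := h4 _ hq
    have h6 : M *ᵥ z = 0 := by
      funext v
      have := (two_dvd_iff _).1 (h5 v)
      rw [cast_mulVec, hB] at this
      refine Eq.trans ?_ this
      congr 1
      funext j
      have h2 : (2 : ZMod 2) = 0 := rfl
      simp [hydef, zt, h2]
    exact hz (hinj z h6)
  choose w hw using fun m : Inv V => split_term A A' S r hS hA' (mem_Inv.1 m.2)
  have hPA : Pf A = 2 ^ r * ∑ m : Inv V, cm m.1 * w m := by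
    unfold Pf
    rw [← Finset.sum_coe_sort (Inv V), mul_sum]
    exact sum_congr rfl fun m _ => by rw [(hw m).1]; ring
  have hc : Odd (∑ m : Inv V, cm m.1 * w m) := by
    rw [← Int.not_even_iff_odd, even_iff_two_dvd, two_dvd_iff]
    intro h
    apply hZdet
    rw [det_two Z hZs hZd, ← h, ← Finset.sum_coe_sort (Inv V)]
    push_cast
    refine sum_congr rfl fun m _ => ?_
    have h1 : ((cm m.1 : ℤ) : ZMod 2) = 1 := by
      have := congrArg (Int.cast : ℤ → ZMod 2) (cm_sq m.1)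
      push_cast at this
      exact sq_one_two _ this
    rw [h1, one_mul, (hw m).2]
  have hmul := Pf_mul K B hK
  rw [← hAdef, hPA] at hmul
  have hcop : IsCoprime ((2 : ℤ) ^ r) B.det := by
    apply IsCoprime.pow_left
    obtain ⟨k, hk⟩ := hBodd
    exact ⟨-k, 1, by rw [hk]; ring⟩
  obtain ⟨c, hc2⟩ : (2 : ℤ) ^ r ∣ Pf K := hcop.dvd_of_dvd_mul_left ⟨_, hmul.symm⟩
  refine ⟨c, ?_, hc2⟩
  rw [hc2] at hmul
  have h7 : ∑ m : Inv V, cm m.1 * w m = B.det * c := by
    apply mul_left_cancel₀ (pow_ne_zero r (two_ne_zero : (2 : ℤ) ≠ 0))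
    rw [hmul]; ring
  rw [h7] at hc
  exact (Int.odd_mul.1 hc).2

end
end Pool.Agent.H.MP_7dfbfb_co
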