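import Pool.Agent.H.MP_7dfbfb_co.B

set_option autoImplicit false

namespace Pool.Agent.H.MP_7dfbfb_co
open Finset Equiv Matrix

def W (n : ℕ) : Type := {p : ℤ × ℤ // 0 ≤ p.2 ∧ p.2 ≤ p.1 ∧ p.1 ≤ (n : ℤ) - 1}

def TG (n : ℕ) : SimpleGraph (W n) :=
  SimpleGraph.fromRel (fun u v => v.1 - u.1 = (0, 1) ∨ v.1 - u.1 = (1, 0) ∨ v.1 - u.1 = (1, 1))

noncomputable instance (n : ℕ) : Fintype (W n) :=
  Fintype.subtype (((Finset.Icc (0 : ℤ) n) ×ˢ (Finset.Icc (0 : ℤ) n)).filter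
    (fun p => 0 ≤ p.2 ∧ p.2 ≤ p.1 ∧ p.1 ≤ (n : ℤ) - 1)) (by
      intro p
      simp only [mem_filter, mem_product, mem_Icc]
      omega)

noncomputable instance (n : ℕ) : LinearOrder (W n) :=
  LinearOrder.lift' (fun v => toLex v.1) (fun _ _ h => Subtype.ext (toLex.injective h))

variable {n : ℕ}

lemma lt_iff (u v : W n) : u < v ↔ u.1.1 < v.1.1 ∨ (u.1.1 = v.1.1 ∧ u.1.2 < v.1.2) :=
  Prod.Lex.toLex_lt_toLex

lemma eq_iff (u v : W n) : u = v ↔ u.1.1 = v.1.1 ∧ u.1.2 = v.1.2 :=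
  ⟨fun h => by rw [h]; exact ⟨rfl, rfl⟩, fun h => Subtype.ext (Prod.ext h.1 h.2)⟩

def Ad (a b c d : ℤ) : Prop :=
  (c = a ∧ d = b + 1) ∨ (c = a + 1 ∧ d = b) ∨ (c = a + 1 ∧ d = b + 1) ∨
  (a = c ∧ b = d + 1) ∨ (a = c + 1 ∧ b = d) ∨ (a = c + 1 ∧ b = d + 1)

lemma adj_iff (u v : W n) : (TG n).Adj u v ↔ Ad u.1.1 u.1.2 v.1.1 v.1.2 := by
  unfold TG Ad
  rw [SimpleGraph.fromRel_adj, Ne, eq_iff]
  simp only [Prod.ext_iff, Prod.fst_sub, Prod.snd_sub]
  omega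

def ss (j : ℤ) : ℤ := if j % 2 = 0 then 1 else -1

def dl (v : W n) (a b : ℤ) : ℤ := if v.1.1 = a ∧ v.1.2 = b then 1 else 0

def KK (n : ℕ) : Matrix (W n) (W n) ℤ := fun u v =>
  dl v u.1.1 (u.1.2 + 1) - dl v u.1.1 (u.1.2 - 1) + ss u.1.2 * dl v (u.1.1 + 1) u.1.2
    - ss u.1.2 * dl v (u.1.1 + 1) (u.1.2 + 1) - ss u.1.2 * dl v (u.1.1 - 1) u.1.2
    - ss u.1.2 * dl v (u.1.1 - 1) (u.1.2 - 1)

lemma KK_cases (u v : W n) :
    (v.1.1 = u.1.1 ∧ v.1.2 = u.1.2 + 1 ∧ KK n u v = 1) ∨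
    (v.1.1 = u.1.1 + 1 ∧ (v.1.2 = u.1.2 ∨ v.1.2 = u.1.2 + 1) ∧ KK n u v = ss v.1.2) ∨
    (v.1.1 = u.1.1 ∧ u.1.2 = v.1.2 + 1 ∧ KK n u v = -1) ∨
    (u.1.1 = v.1.1 + 1 ∧ (v.1.2 = u.1.2 ∨ u.1.2 = v.1.2 + 1) ∧ KK n u v = - ss u.1.2) ∨
    (¬ Ad u.1.1 u.1.2 v.1.1 v.1.2 ∧ KK n u v = 0) := by
  have hs : ss (u.1.2 + 1) = - ss u.1.2 := by unfold ss; split_ifs <;> omega
  by_cases h : Ad u.1.1 u.1.2 v.1.1 v.1.2
  · unfold KK dl
    rcases h with h | h | h | h | h | h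
    · left; refine ⟨h.1, h.2, ?_⟩
      simp (disch := omega) only [if_pos, if_neg]; ring
    · right; left; refine ⟨h.1, Or.inl h.2, ?_⟩
      simp (disch := omega) only [if_pos, if_neg]; rw [h.2]; ring
    · right; left; refine ⟨h.1, Or.inr h.2, ?_⟩
      simp (disch := omega) only [if_pos, if_neg]; rw [h.2, hs]; ring
    · right; right; left; refine ⟨h.1.symm, h.2, ?_⟩
      simp (disch := omega) only [if_pos, if_neg]; ring
    · right; right; right; left; refine ⟨h.1, Or.inl h.2.symm, ?_⟩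
      simp (disch := omega) only [if_pos, if_neg]; ring
    · right; right; right; left; refine ⟨h.1, Or.inr h.2, ?_⟩
      simp (disch := omega) only [if_pos, if_neg]; ring
  · right; right; right; right
    refine ⟨h, ?_⟩
    unfold KK dl
    unfold Ad at h
    simp (disch := omega) only [if_pos, if_neg]; ring

lemma KK_skew (u v : W n) : KK n u v = - KK n v u := by
  have h1 := KK_cases u v
  have h2 := KK_cases v u
  unfold Ad at h1 h2
  omega

def sn (P : Prop) [Decidable P] : ℤ := if P then -1 else 1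

lemma sn_sq (P : Prop) [Decidable P] : sn P * sn P = 1 := by unfold sn; split_ifs <;> rfl

lemma sn_congr {P Q : Prop} [Decidable P] [Decidable Q] (h : P ↔ Q) : sn P = sn Q := by
  unfold sn; simp only [h]

lemma ss_eq (v : W n) : ss v.1.2 = ∏ u : W n, sn (u.1.1 = v.1.1 ∧ u.1.2 < v.1.2) := by
  unfold sn
  rw [prod_ite, prod_const, prod_const_one, mul_one]
  have h : (univ.filter (fun u : W n => u.1.1 = v.1.1 ∧ u.1.2 < v.1.2)).card =
      (Finset.Ico (0 : ℤ) v.1.2).card := by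
    refine Finset.card_bij (fun u _ => u.1.2) ?_ ?_ ?_
    · intro u hu
      simp only [mem_filter, mem_univ, true_and] at hu
      have := u.2
      simp only [mem_Ico]; omega
    · intro u hu w hw h
      simp only [mem_filter, mem_univ, true_and] at hu hw
      rw [eq_iff]; omega
    · intro j hj
      simp only [mem_Ico] at hj
      have := v.2
      exact ⟨⟨(v.1.1, j), by simp only; omega⟩, mem_filter.2 ⟨mem_univ _, rfl, hj.2⟩, rfl⟩
  rw [h, Int.card_Ico, sub_zero]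
  have h0 := v.2.1
  obtain ⟨k, hk⟩ := Int.eq_ofNat_of_zero_le h0
  rw [hk, Int.toNat_natCast]
  unfold ss
  rcases Nat.even_or_odd k with he | he
  · rw [he.neg_one_pow, if_pos]; obtain ⟨t, rfl⟩ := he; omega
  · rw [he.neg_one_pow, if_neg]; obtain ⟨t, rfl⟩ := he; omega

lemma cm_eq {V : Type} [Fintype V] [LinearOrder V] (m : Perm V) :
    cm m = ∏ p : V × V, sn (p.1 < p.2 ∧ m p.2 < p.1 ∧ m p.2 < m p.1) := by
  unfold cm Prs
  rw [prod_filter]
  refine prod_congr rfl fun p _ => ?_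
  unfold sn FF sg
  by_cases h : p.1 < p.2
  · have : key m p.2 < key m p.1 ↔ m p.2 < p.1 ∧ m p.2 < m p.1 := by
      unfold key
      rw [lt_min_iff, min_lt_iff, min_lt_iff]
      constructor
      · rintro ⟨h1 | h1, h2 | h2⟩
        · exact absurd (h.trans h1) (lt_irrefl _)
        · exact absurd (h.trans h1) (lt_irrefl _)
        · exact ⟨h1, h1.trans (h.trans h2)⟩
        · exact ⟨h1, h2⟩
      · rintro ⟨h1, h2⟩; exact ⟨Or.inr h1, Or.inr h2⟩
    simp only [h, true_and, ← this, if_true]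
    rcases lt_trichotomy (key m p.1) (key m p.2) with h1 | h1 | h1
    · simp [h1, h1.ne, not_lt.2 h1.le]
    · simp [h1]
    · simp [h1, h1.ne', not_lt.2 h1.le]
  · simp [h]

lemma arith (a b c d e f g h : ℤ) (h1 : Ad a b e f) (h2 : Ad c d g h)
    (h3 : e = g ∧ f = h → a = c ∧ b = d) :
    sn ((a < c ∨ (a = c ∧ b < d)) ∧ (g < a ∨ (g = a ∧ h < b)) ∧ (g < e ∨ (g = e ∧ h < f))) *
      sn (g + 1 = c ∧ a = c ∧ b < d) =
    sn (g + 1 = c ∧ a = g ∧ h < b ∧ e = a) * sn (g + 1 = c ∧ a = g ∧ h < b ∧ e = a + 1) *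
      sn (e + 1 = a ∧ g + 1 = c ∧ a = c ∧ b < d) := by
  have hQ : ((a < c ∨ (a = c ∧ b < d)) ∧ (g < a ∨ (g = a ∧ h < b)) ∧ (g < e ∨ (g = e ∧ h < f))) ↔
      (g + 1 = c ∧ a = c ∧ b < d ∧ e + 1 ≠ a) ∨ (g + 1 = c ∧ a = g ∧ h < b ∧ e = a) ∨
        (g + 1 = c ∧ a = g ∧ h < b ∧ e = a + 1) := by
    unfold Ad at h1 h2
    omega
  rw [sn_congr hQ]
  clear hQ h1 h2 h3
  unfold sn
  split_ifs <;> first | rfl | omega

lemma term_one {m : Perm (W n)} (hm : ∀ v, m (m v) = v ∧ m v ≠ v)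
    (ha : ∀ v, (TG n).Adj v (m v)) : cm m * ∏ u ∈ Tm m, KK n u (m u) = 1 := by
  have ha' : ∀ v, Ad v.1.1 v.1.2 (m v).1.1 (m v).1.2 := fun v => (adj_iff _ _).1 (ha v)
  have hinj : ∀ u v, (m u).1.1 = (m v).1.1 ∧ (m u).1.2 = (m v).1.2 →
      u.1.1 = v.1.1 ∧ u.1.2 = v.1.2 := fun u v h =>
    (eq_iff _ _).1 (m.injective ((eq_iff _ _).2 h))
  have h1 : ∏ u ∈ Tm m, KK n u (m u) =
      ∏ p : W n × W n, sn ((m p.2).1.1 + 1 = p.2.1.1 ∧ p.1.1.1 = p.2.1.1 ∧ p.1.1.2 < p.2.1.2) := by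
    rw [Fintype.prod_prod_type_right]
    have e1 : ∀ v : W n, ∏ u : W n, sn ((m v).1.1 + 1 = v.1.1 ∧ u.1.1 = v.1.1 ∧ u.1.2 < v.1.2) =
        if (m v).1.1 + 1 = v.1.1 then ss v.1.2 else 1 := by
      intro v
      split_ifs with h
      · rw [ss_eq]; exact prod_congr rfl fun u _ => sn_congr (by simp [h])
      · exact prod_eq_one fun u _ => by simp [sn, h]
    simp only [e1]
    rw [prod_split hm]
    refine prod_congr rfl fun u hu => ?_
    simp only [Tm, mem_filter, mem_univ, true_and, lt_iff] at hu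
    rw [(hm u).1]
    have h2 := KK_cases u (m u)
    have h3 := ha' u
    unfold Ad at h2 h3
    split_ifs <;> omega
  rw [h1, cm_eq, ← prod_mul_distrib]
  have h2 : ∀ p : W n × W n, sn (p.1 < p.2 ∧ m p.2 < p.1 ∧ m p.2 < m p.1) *
      sn ((m p.2).1.1 + 1 = p.2.1.1 ∧ p.1.1.1 = p.2.1.1 ∧ p.1.1.2 < p.2.1.2) =
      sn ((m p.2).1.1 + 1 = p.2.1.1 ∧ p.1.1.1 = (m p.2).1.1 ∧ (m p.2).1.2 < p.1.1.2 ∧
        (m p.1).1.1 = p.1.1.1) *
      sn ((m p.2).1.1 + 1 = p.2.1.1 ∧ p.1.1.1 = (m p.2).1.1 ∧ (m p.2).1.2 < p.1.1.2 ∧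
        (m p.1).1.1 = p.1.1.1 + 1) *
      sn ((m p.1).1.1 + 1 = p.1.1.1 ∧ (m p.2).1.1 + 1 = p.2.1.1 ∧ p.1.1.1 = p.2.1.1 ∧
        p.1.1.2 < p.2.1.2) := by
    intro p
    rw [← arith _ _ _ _ _ _ _ _ (ha' p.1) (ha' p.2) (hinj p.1 p.2)]
    congr 1
    exact sn_congr (by simp only [lt_iff])
  simp only [h2]
  rw [prod_mul_distrib, prod_mul_distrib]
  have h3 : ∏ p : W n × W n, sn ((m p.2).1.1 + 1 = p.2.1.1 ∧ p.1.1.1 = (m p.2).1.1 ∧
      (m p.2).1.2 < p.1.1.2 ∧ (m p.1).1.1 = p.1.1.1) = 1 := by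
    refine Finset.prod_involution (fun p _ => (m p.1, p.2)) ?_ ?_ ?_ ?_
    · intro p _
      refine Eq.trans ?_ (sn_sq ((m p.2).1.1 + 1 = p.2.1.1 ∧ p.1.1.1 = (m p.2).1.1 ∧
        (m p.2).1.2 < p.1.1.2 ∧ (m p.1).1.1 = p.1.1.1))
      congr 1
      refine sn_congr ?_
      simp only [(hm p.1).1]
      have a1 := ha' p.1
      have a2 := hinj p.1 p.2
      have a3 := hinj (m p.1) p.2
      rw [(hm p.1).1] at a3
      unfold Ad at a1
      omega
    · intro p _ _ h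
      exact (hm p.1).2 (congrArg Prod.fst h)
    · intro p _; exact mem_univ _
    · intro p _; simp [(hm p.1).1]
  have h4 : ∏ p : W n × W n, sn ((m p.2).1.1 + 1 = p.2.1.1 ∧ p.1.1.1 = (m p.2).1.1 ∧
      (m p.2).1.2 < p.1.1.2 ∧ (m p.1).1.1 = p.1.1.1 + 1) =
      ∏ p : W n × W n, sn ((m p.1).1.1 + 1 = p.1.1.1 ∧ (m p.2).1.1 + 1 = p.2.1.1 ∧
        p.1.1.1 = p.2.1.1 ∧ p.1.1.2 < p.2.1.2) := by
    refine Fintype.prod_equiv ((Equiv.prodComm _ _).trans (Equiv.prodCongr (Equiv.refl _) m))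
      _ _ fun p => sn_congr ?_
    simp only [Equiv.trans_apply, Equiv.prodComm_apply, Equiv.prodCongr_apply, Prod.map,
      Prod.fst_swap, Prod.snd_swap, Equiv.refl_apply, (hm p.1).1]
    have a1 := ha' p.1
    have a2 := ha' p.2
    have a3 := hinj (m p.1) p.2
    have a4 := hinj p.1 (m p.2)
    rw [(hm p.1).1] at a3
    rw [(hm p.2).1] at a4
    unfold Ad at a1 a2
    omega
  rw [h3, h4, one_mul, ← prod_mul_distrib]
  exact prod_eq_one fun p _ => sn_sq _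

lemma card_pm {V : Type} [Fintype V] [LinearOrder V] (G : SimpleGraph V) [DecidableRel G.Adj] :
    Nat.card {H : G.Subgraph // H.IsPerfectMatching} =
      ((Inv V).filter (fun m => ∀ v, G.Adj v (m v))).card := by
  rw [← Nat.card_eq_finsetCard]
  symm
  let φ : ((Inv V).filter (fun m => ∀ v, G.Adj v (m v))) →
      {H : G.Subgraph // H.IsPerfectMatching} := fun m =>
    ⟨{ verts := Set.univ
       Adj := fun u v => m.1 u = v
       adj_sub := fun {u v} h => h ▸ (mem_filter.1 m.2).2 u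
       edge_vert := fun _ => Set.mem_univ _
       symm := ⟨fun u v h => by rw [← h]; exact (mem_Inv.1 (mem_filter.1 m.2).1 u).1⟩ },
      SimpleGraph.Subgraph.isPerfectMatching_iff.2 fun v => ⟨m.1 v, rfl, fun _ h => Eq.symm h⟩⟩
  refine Nat.card_eq_of_bijective φ ⟨?_, ?_⟩
  · intro m m' h
    apply Subtype.ext
    ext v
    have h1 : (φ m).1.Adj v (m.1 v) := rfl
    rw [h] at h1
    exact Eq.symm h1
  · rintro ⟨H, hH⟩
    have h1 := SimpleGraph.Subgraph.isPerfectMatching_iff.1 hH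
    choose f hf hf' using h1
    have hff : ∀ v, f (f v) = v := fun v => (hf' (f v) v (hf v).symm).symm
    refine ⟨⟨Function.Involutive.toPerm f hff, mem_filter.2 ⟨mem_Inv.2 fun v => ⟨hff v, ?_⟩,
      fun v => H.adj_sub (hf v)⟩⟩, Subtype.ext ?_⟩
    · exact (H.adj_sub (hf v)).ne'
    · ext u v
      · simp [φ, hH.2 u]
      · exact ⟨fun h => (show f u = v from h) ▸ hf u, fun h => (hf' u v h).symm⟩

theorem Pf_KK (n : ℕ) :
    Pf (KK n) = (Nat.card {H : (TG n).Subgraph // H.IsPerfectMatching} : ℕ) := by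
  classical
  rw [card_pm, card_filter]
  unfold Pf
  push_cast
  refine sum_congr rfl fun m hm => ?_
  have hm' := mem_Inv.1 hm
  split_ifs with h
  · exact term_one hm' h
  · push Not at h
    obtain ⟨v, hv⟩ := h
    have h0 : ∀ u w : W n, ¬ (TG n).Adj u w → KK n u w = 0 := by
      intro u w huw
      rw [adj_iff] at huw
      have := KK_cases u w
      unfold Ad at this huw
      omega
    rcases lt_trichotomy v (m v) with h1 | h1 | h1
    · rw [prod_eq_zero (s := Tm m) (f := fun u => KK n u (m u)) (i := v) (by simpa [Tm] using h1) (h0 _ _ hv), mul_zero]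
    · exact absurd h1.symm (hm' v).2
    · rw [prod_eq_zero (s := Tm m) (f := fun u => KK n u (m u)) (i := m v) (by simpa [Tm, (hm' v).1] using h1)
        (h0 _ _ (by rw [(hm' v).1]; exact fun h => hv h.symm)), mul_zero]

end Pool.Agent.H.MP_7dfbfb_co
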