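import Mathlib

set_option autoImplicit false

namespace Pool.Agent.H.MP_7dfbfb_co
open Finset

def hex (u : ℕ → ℕ → ZMod 2) (a b : ℕ) : ZMod 2 :=
  u (a + 2) b + u a (b + 2) + u (a + 1) (b + 2) + u (a + 2) (b + 1) + u (a + 1) b + u a (b + 1)

lemma struct0 (f : ℕ → ℕ → ZMod 2) (h : ℕ) (h0 : ∀ b, f 0 b = 0) (h1 : ∀ a, f a 0 = 0)
    (hh : ∀ a b, a + b + 3 ≤ h → hex f a b = 0) :
    ∃ E : ℕ → ZMod 2, E 0 = 0 ∧ ∀ a b, a + b ≤ h → f a b = E a + E b + E (a + b) := by
  let E : ℕ → ZMod 2 := fun k => ∑ i ∈ range k, f 1 i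
  have hE : ∀ k, E (k + 1) = E k + f 1 k := fun k => sum_range_succ _ _
  have hE0 : E 0 = 0 := rfl
  refine ⟨E, rfl, ?_⟩
  have key : ∀ a, (∀ b, a + b ≤ h → f a b = E a + E b + E (a + b)) ∧
      (∀ b, a + 1 + b ≤ h → f (a + 1) b = E (a + 1) + E b + E (a + 1 + b)) := by
    intro a
    induction a with
    | zero =>
      constructor
      · intro b _
        rw [h0, hE0, zero_add, zero_add, CharTwo.add_self_eq_zero]
      · intro b _
        have e1 := hE 0
        have e2 := hE b
        rw [h1, hE0] at e1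
        rw [show 0 + 1 + b = b + 1 by omega]
        linear_combination (norm := (ring_nf; reduce_mod_char)) e1 + e2
    | succ a ih =>
      refine ⟨ih.2, fun b => ?_⟩
      induction b with
      | zero =>
        intro _
        rw [h1, hE0, add_zero, add_zero, CharTwo.add_self_eq_zero]
      | succ b ihb =>
        intro hb
        have e0 := hh a b (by omega)
        have e1 := ihb (by omega)
        have e2 := ih.1 (b + 2) (by omega)
        have e3 := ih.1 (b + 1) (by omega)
        have e4 := ih.2 (b + 2) (by omega)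
        have e5 := ih.2 b (by omega)
        unfold hex at e0
        rw [show a + 1 + 1 + b = a + b + 2 by omega] at e1
        rw [show a + (b + 2) = a + b + 2 by omega] at e2
        rw [show a + (b + 1) = a + b + 1 by omega] at e3
        rw [show a + 1 + (b + 2) = a + b + 3 by omega] at e4
        rw [show a + 1 + b = a + b + 1 by omega] at e5
        rw [show a + 1 + 1 + (b + 1) = a + b + 3 by omega]
        rw [show a + 1 + 1 = a + 2 by omega] at e1 ⊢
        generalize f (a + 2) b = x1 at *
        generalize f a (b + 2) = x2 at *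
        generalize f (a + 1) (b + 2) = x3 at *
        generalize f (a + 2) (b + 1) = x4 at *
        generalize f (a + 1) b = x5 at *
        generalize f a (b + 1) = x6 at *
        linear_combination (norm := (ring_nf; reduce_mod_char)) e0 + e1 + e2 + e3 + e4 + e5
  exact fun a => (key a).1

lemma struct1 (f : ℕ → ℕ → ZMod 2) (h : ℕ) (h2 : 2 ≤ h) (h0 : ∀ b, f 0 b = 0)
    (h1 : ∀ a, f a 0 = 0) (hb : ∀ a b, a + b = h → f a b = 0)
    (hh : ∀ a b, a + b + 3 ≤ h → hex f a b = 0) :
    ∃ E : ℕ → ZMod 2, E 0 = 0 ∧ (h % 2 = 0 → E 1 = 0) ∧ (∀ a b, a + b = h → E a = E b) ∧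
      ∀ a b, a + b ≤ h → f a b = E a + E b + E (a + b) := by
  obtain ⟨E, hE0, hE⟩ := struct0 f h h0 h1 hh
  have main : ∀ c : ZMod 2, E h + h * c = 0 →
      (∀ a b, a + b = h → E a + a * c = E b + b * c) ∧
      ∀ a b, a + b ≤ h → f a b = (E a + a * c) + (E b + b * c) + (E (a + b) + (a + b : ℕ) * c) := by
    intro c hc
    constructor
    · intro a b hab
      have e1 := hE a b hab.le
      rw [hb a b hab, hab] at e1
      rw [← hab] at hc
      rw [hab] at hc
      have e2 : ((h : ℕ) : ZMod 2) = a + b := by rw [← hab]; push_cast; rfl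
      rw [e2] at hc
      linear_combination (norm := (ring_nf; reduce_mod_char)) e1 + hc
    · intro a b hab
      have e1 := hE a b hab
      push_cast
      linear_combination (norm := (ring_nf; reduce_mod_char)) e1
  rcases Nat.even_or_odd' h with ⟨k, hk | hk⟩
  · have e2 : ((h : ℕ) : ZMod 2) = 0 := by rw [hk]; push_cast; reduce_mod_char
    have e3 : E h = 0 := by
      have e1 := hE k k (by omega)
      rw [hb k k (by omega), show k + k = h by omega] at e1
      linear_combination (norm := (ring_nf; reduce_mod_char)) e1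
    obtain ⟨m1, m2⟩ := main (E 1) (by rw [e2, e3]; simp)
    exact ⟨fun a => E a + a * E 1, by simp [hE0], fun _ => by simp [CharTwo.add_self_eq_zero],
      m1, m2⟩
  · have e2 : ((h : ℕ) : ZMod 2) = 1 := by rw [hk]; push_cast; reduce_mod_char
    obtain ⟨m1, m2⟩ := main (E h) (by rw [e2, one_mul, CharTwo.add_self_eq_zero])
    exact ⟨fun a => E a + a * E h, by simp [hE0], fun _ => by omega, m1, m2⟩

def gg (e : ℕ → ZMod 2) (a b : ℕ) : ZMod 2 :=
  a * (e (a + 2) + e b + e (b + 2)) + (a + 1) * e a + e (b + 1) + e (a + b + 1)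

lemma lineA (u : ℕ → ℕ → ZMod 2) (k l : ℕ) : ∑ j ∈ range l, hex u k j =
    u (k + 2) 0 + u (k + 2) l + u k 1 + u k (l + 1) + u (k + 1) 0 + u (k + 1) 1 + u (k + 1) l
      + u (k + 1) (l + 1) := by
  induction l with
  | zero => simp only [range_zero, sum_empty, zero_add]; ring_nf; reduce_mod_char
  | succ l ih =>
    rw [sum_range_succ, ih]
    unfold hex
    rw [show l + 1 + 1 = l + 2 by omega]
    linear_combination (norm := (ring_nf; reduce_mod_char))

lemma lineC (k : ℕ) : ∀ u : ℕ → ℕ → ZMod 2, ∑ p ∈ antidiagonal k, hex u p.1 p.2 =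
    u 0 (k + 2) + u 1 (k + 1) + u (k + 1) 1 + u (k + 2) 0 + u 1 (k + 2) + u (k + 2) 1
      + u 0 (k + 1) + u (k + 1) 0 := by
  induction k with
  | zero =>
    intro u
    rw [show (antidiagonal 0 : Finset (ℕ × ℕ)) = {(0, 0)} from rfl]
    simp only [sum_singleton, hex, zero_add]
    linear_combination (norm := (ring_nf; reduce_mod_char))
  | succ k ih =>
    intro u
    rw [Finset.Nat.sum_antidiagonal_succ]
    have := ih (fun a b => u (a + 1) b)
    have e : ∀ p : ℕ × ℕ, hex u (p.1 + 1) p.2 = hex (fun a b => u (a + 1) b) p.1 p.2 :=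
      fun p => rfl
    simp only [e]
    rw [this]
    unfold hex
    simp only [zero_add]
    rw [show k + 1 + 1 = k + 2 by omega, show k + 1 + 2 = k + 3 by omega,
      show k + 2 + 1 = k + 3 by omega]
    linear_combination (norm := (ring_nf; reduce_mod_char))

lemma sumC (e : ℕ → ZMod 2) (he : e 0 = 0) (k : ℕ) :
    ∑ p ∈ antidiagonal k, gg e p.1 p.2 = k * (e 1 + e (k + 2)) := by
  have h1 : ∑ p ∈ antidiagonal k, gg e p.1 p.2 = ∑ p ∈ antidiagonal k,
      ((p.1 * e (p.1 + 2) + (p.1 + 1) * e p.1 + e (k + 1)) +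
        ((k + p.2) * (e p.2 + e (p.2 + 2)) + e (p.2 + 1))) := by
    refine sum_congr rfl fun p hp => ?_
    have hp' := mem_antidiagonal.1 hp
    have e2 : ((k : ℕ) : ZMod 2) = p.1 + p.2 := by rw [← hp']; push_cast; rfl
    unfold gg
    rw [hp', e2]
    linear_combination (norm := (ring_nf; reduce_mod_char))
  rw [h1, sum_add_distrib, ← Finset.Nat.sum_antidiagonal_swap
    (f := fun p => ((k : ZMod 2) + p.2) * (e p.2 + e (p.2 + 2)) + e (p.2 + 1)), ← sum_add_distrib]
  simp only [Prod.snd_swap]
  rw [Finset.Nat.sum_antidiagonal_eq_sum_range_succ (fun a _ =>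
    ((a : ZMod 2) * e (a + 2) + (a + 1) * e a + e (k + 1)) +
      ((k + a) * (e a + e (a + 2)) + e (a + 1)))]
  have h2 : ∀ (κ c : ZMod 2) (N : ℕ), ∑ a ∈ range N,
      (((a : ZMod 2) * e (a + 2) + (a + 1) * e a + c) + ((κ + a) * (e a + e (a + 2)) + e (a + 1))) =
      κ * (e 1 + e N + e (N + 1)) + e N + N * c := by
    intro κ c N
    induction N with
    | zero => simp [he, CharTwo.add_self_eq_zero]
    | succ N ih =>
      rw [sum_range_succ, ih, show N + 1 + 1 = N + 2 by omega]
      push_cast
      linear_combination (norm := (ring_nf; reduce_mod_char))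
  rw [h2, Nat.succ_eq_add_one, show k + 1 + 1 = k + 2 by omega]
  push_cast
  linear_combination (norm := (ring_nf; reduce_mod_char))

lemma half_succ (l : ℕ) : (((l + 1) / 2 : ℕ) : ZMod 2) = ((l / 2 : ℕ) : ZMod 2) + l := by
  rcases Nat.even_or_odd' l with ⟨t, rfl | rfl⟩
  · rw [show (2 * t + 1) / 2 = t by omega, show 2 * t / 2 = t by omega]
    push_cast; reduce_mod_char
  · rw [show (2 * t + 1 + 1) / 2 = t + 1 by omega, show (2 * t + 1) / 2 = t by omega]
    push_cast; reduce_mod_char

lemma sumAB (e : ℕ → ZMod 2) (he : e 0 = 0) (k l : ℕ) :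
    ∑ j ∈ range l, (gg e k j + gg e j k) =
      l * (k * e (k + 2) + (k + 1) * e k + e (k + 1)) + k * (e 1 + e l + e (l + 1))
        + ((l / 2 : ℕ) : ZMod 2) * (e k + e (k + 2)) + e 1 + (l + 1) * (e l + e (l + 1)) := by
  induction l with
  | zero => simp [he, CharTwo.add_self_eq_zero]
  | succ l ih =>
    rw [sum_range_succ, ih, half_succ, show l + 1 + 1 = l + 2 by omega]
    unfold gg
    rw [show l + k + 1 = k + l + 1 by omega]
    push_cast
    linear_combination (norm := (ring_nf; reduce_mod_char))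

lemma billiard (u : ℕ → ℕ → ZMod 2) (e : ℕ → ZMod 2) (h : ℕ) (he : e 0 = 0)
    (hs : ∀ a b, a + b = h → e a = e b)
    (h0 : ∀ b, b ≤ h → u 0 b = e b) (h1 : ∀ a, a ≤ h → u a 0 = e a)
    (hb : ∀ a b, a + b = h → u a b = e a)
    (hh : ∀ a b, a + b + 3 ≤ h → hex u a b = gg e a b) (k l : ℕ) (hkl : k + l + 2 = h) :
    (k + 1) * e k + (l + 1) * e (k + 2) +
      (((k / 2 : ℕ) : ZMod 2) + ((l / 2 : ℕ) : ZMod 2)) * (e k + e (k + 2)) = 0 := by
  have G : ∀ k l, k + l + 2 = h → u (k + 1) l + u k (l + 1) + u (l + 1) k + u l (k + 1) =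
      l * (k * e (k + 2) + (k + 1) * e k) + (k + l + 1) * e (k + 2) +
        ((l / 2 : ℕ) : ZMod 2) * (e k + e (k + 2)) := by
    intro k l hkl
    have a1 := lineA u k l
    have a2 := lineA (fun a b => u b a) k l
    have a3 := sumAB e he k l
    have a4 : ∑ j ∈ range l, (gg e k j + gg e j k) =
        ∑ j ∈ range l, hex u k j + ∑ j ∈ range l, hex (fun a b => u b a) k j := by
      rw [← sum_add_distrib]
      refine sum_congr rfl fun j hj => ?_
      have := mem_range.1 hj
      rw [← hh k j (by omega), ← hh j k (by omega)]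
      unfold hex; ring
    have a5 : u 1 (k + 1) + u 1 k + u (k + 1) 1 + u k 1 = (k + 1) * (e 1 + e (k + 1)) := by
      cases k with
      | zero =>
        simp only [zero_add, h0 1 (by omega), h1 1 (by omega)]
        linear_combination (norm := (ring_nf; reduce_mod_char))
      | succ k =>
        have b1 := lineC k u
        have b2 := sumC e he k
        have b3 : ∑ p ∈ antidiagonal k, hex u p.1 p.2 = ∑ p ∈ antidiagonal k, gg e p.1 p.2 := by
          refine sum_congr rfl fun p hp => hh _ _ ?_
          have : p.1 + p.2 = k := mem_antidiagonal.1 hp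
          omega
        rw [b3, b2, h0 _ (by omega), h0 _ (by omega),
          h1 _ (by omega), h1 _ (by omega)] at b1
        rw [show k + 1 + 1 = k + 2 by omega]
        push_cast
        linear_combination (norm := (ring_nf; reduce_mod_char)) b1
    rw [a4, a1, a2, h1 (k + 2) (by omega), h1 (k + 1) (by omega), h0 (k + 2) (by omega),
      h0 (k + 1) (by omega), hb (k + 2) l (by omega), hb (k + 1) (l + 1) (by omega),
      hb l (k + 2) (by omega), hb (l + 1) (k + 1) (by omega), hs l (k + 2) (by omega),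
      hs (l + 1) (k + 1) (by omega)] at a3
    linear_combination (norm := (ring_nf; reduce_mod_char)) a3 + a5
  have g1 := G k l hkl
  have g2 := G l k (by omega)
  rw [hs l (k + 2) (by omega), hs (l + 2) k (by omega)] at g2
  linear_combination (norm := (ring_nf; reduce_mod_char)) g1 + g2

lemma cast_mod (a : ℕ) (r : ℕ) (h : a % 2 = r) : ((a : ℕ) : ZMod 2) = r := by
  rw [← h, ZMod.natCast_mod]

lemma e_zero (e : ℕ → ZMod 2) (h : ℕ) (h4 : h % 4 = 1 ∨ h % 4 = 2) (he : e 0 = 0)
    (he1 : h % 2 = 0 → e 1 = 0) (hs : ∀ a b, a + b = h → e a = e b)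
    (hr : ∀ k l, k + l + 2 = h → (k + 1) * e k + (l + 1) * e (k + 2) +
      (((k / 2 : ℕ) : ZMod 2) + ((l / 2 : ℕ) : ZMod 2)) * (e k + e (k + 2)) = 0) :
    ∀ a, a ≤ h → e a = 0 := by
  rcases h4 with h4 | h4
  · have ev : ∀ a, a ≤ h → a % 2 = 0 → e a = 0 := by
      intro a ha h2
      rcases Nat.eq_zero_or_pos a with rfl | hp
      · exact he
      · obtain ⟨k, rfl⟩ : ∃ k, a = k + 2 := ⟨a - 2, by omega⟩
        have := hr k (h - k - 2) (by omega)
        rw [← Nat.cast_add, cast_mod (k / 2 + (h - k - 2) / 2) 1 (by omega),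
          cast_mod k 0 (by omega), cast_mod (h - k - 2) 1 (by omega)] at this
        push_cast at this
        linear_combination (norm := (ring_nf; reduce_mod_char)) this
    intro a ha
    by_cases h2 : a % 2 = 0
    · exact ev a ha h2
    · rw [hs a (h - a) (by omega)]; exact ev _ (by omega) (by omega)
  · have st : ∀ k, k + 2 ≤ h → e (k + 2) = e k := by
      intro k hk
      have := hr k (h - k - 2) (by omega)
      rw [← Nat.cast_add] at this
      by_cases h2 : k % 2 = 0
      · rw [cast_mod (k / 2 + (h - k - 2) / 2) 0 (by omega),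
          cast_mod k 0 (by omega), cast_mod (h - k - 2) 0 (by omega)] at this
        push_cast at this
        linear_combination (norm := (ring_nf; reduce_mod_char)) this
      · rw [cast_mod (k / 2 + (h - k - 2) / 2) 1 (by omega),
          cast_mod k 1 (by omega), cast_mod (h - k - 2) 1 (by omega)] at this
        push_cast at this
        linear_combination (norm := (ring_nf; reduce_mod_char)) this
    intro a
    induction a using Nat.strong_induction_on with
    | _ a ih =>
      intro ha
      match a, ih, ha with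
      | 0, _, _ => exact he
      | 1, _, _ => exact he1 (by omega)
      | k + 2, ih, ha => rw [st k ha]; exact ih k (by omega) (by omega)

lemma mod_four (x : ℕ → ℕ → ℤ) (h : ℕ) (h4 : h % 4 = 1 ∨ h % 4 = 2) (h2 : 2 ≤ h)
    (h0 : ∀ b, x 0 b = 0) (h1 : ∀ a, x a 0 = 0) (hb : ∀ a b, a + b = h → x a b = 0)
    (hh : ∀ a b, a + b + 3 ≤ h → ∃ s : ℤ, (a % 2 = 0 ∧ s = 1 ∨ a % 2 = 1 ∧ s = -1) ∧
      (4 : ℤ) ∣ x (a + 2) b - x a (b + 2) + s * x (a + 1) (b + 2) - s * x (a + 2) (b + 1)
        - s * x (a + 1) b - s * x a (b + 1)) :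
    ∀ a b, a + b ≤ h → ((x a b : ℤ) : ZMod 2) = 0 := by
  have dv : ∀ z : ℤ, (2 : ℤ) ∣ z ↔ (z : ZMod 2) = 0 := fun z => by
    rw [ZMod.intCast_zmod_eq_zero_iff_dvd]; rfl
  obtain ⟨e, he0, he1, hs, hf⟩ := struct1 (fun a b => ((x a b : ℤ) : ZMod 2)) h h2
    (fun b => by simp [h0]) (fun a => by simp [h1]) (fun a b hab => by simp [hb a b hab])
    (fun a b hab => by
      obtain ⟨s, hs, hd⟩ := hh a b hab
      have := (dv _).1 (dvd_trans ⟨2, rfl⟩ hd)
      unfold hex
      rcases hs with ⟨_, rfl⟩ | ⟨_, rfl⟩ <;> push_cast at this <;>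
        linear_combination (norm := (ring_nf; reduce_mod_char)) this)
  let E : ℕ → ℤ := fun a => ((e a).val : ℕ)
  have hE : ∀ a, ((E a : ℤ) : ZMod 2) = e a := fun a => by simp [E]
  have hu : ∀ a b, ∃ u : ℤ, a + b ≤ h → x a b = E a + E b + E (a + b) - 2 * u := by
    intro a b
    by_cases hab : a + b ≤ h
    · have : (2 : ℤ) ∣ E a + E b + E (a + b) - x a b := by
        rw [dv]; push_cast
        rw [hE, hE, hE, ← hf a b hab, sub_self]
      obtain ⟨u, hu⟩ := this
      exact ⟨u, fun _ => by omega⟩
    · exact ⟨0, fun h => absurd h hab⟩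
  choose u hu using hu
  have hE0 : E 0 = 0 := by simp [E, he0]
  have hEs : ∀ a b, a + b = h → E a = E b := fun a b hab => by simp [E, hs a b hab]
  have hz := e_zero e h h4 he0 he1 hs (billiard (fun a b => ((u a b : ℤ) : ZMod 2)) e h he0 hs
    (fun b hb' => by
      have := hu 0 b (by omega)
      rw [h0, hE0, zero_add b] at this
      have e1 : u 0 b = E b := by omega
      simp only [e1, hE])
    (fun a ha => by
      have := hu a 0 (by omega)
      rw [h1, hE0, add_zero a] at this
      have e1 : u a 0 = E a := by omega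
      simp only [e1, hE])
    (fun a b hab => by
      have := hu a b hab.le
      rw [hb a b hab, hab, ← hEs a b hab, ← hEs 0 h (by omega), hE0] at this
      have e1 : u a b = E a := by omega
      simp only [e1, hE])
    (fun a b hab => by
      obtain ⟨s, hs, hd⟩ := hh a b hab
      rw [hu (a + 2) b (by omega), hu a (b + 2) (by omega), hu (a + 1) (b + 2) (by omega),
        hu (a + 2) (b + 1) (by omega), hu (a + 1) b (by omega), hu a (b + 1) (by omega),
        show a + 2 + b = a + b + 2 by omega, show a + (b + 2) = a + b + 2 by omega,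
        show a + 1 + (b + 2) = a + b + 3 by omega, show a + 2 + (b + 1) = a + b + 3 by omega,
        show a + 1 + b = a + b + 1 by omega, show a + (b + 1) = a + b + 1 by omega] at hd
      unfold hex gg
      rcases hs with ⟨ha, rfl⟩ | ⟨ha, rfl⟩
      · have : (2 : ℤ) ∣ u (a + 2) b + u a (b + 2) + u (a + 1) (b + 2) + u (a + 2) (b + 1)
            + u (a + 1) b + u a (b + 1) + E a + E (b + 1) + E (a + b + 1) := by omega
        rw [dv] at this
        push_cast at this
        rw [hE, hE, hE] at this
        rw [cast_mod a 0 ha]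
        push_cast
        linear_combination (norm := (ring_nf; reduce_mod_char)) this
      · have : (2 : ℤ) ∣ u (a + 2) b + u a (b + 2) + u (a + 1) (b + 2) + u (a + 2) (b + 1)
            + u (a + 1) b + u a (b + 1) + E (a + 2) + E b + E (b + 2) + E (b + 1)
            + E (a + b + 1) := by omega
        rw [dv] at this
        push_cast at this
        rw [hE, hE, hE, hE, hE] at this
        rw [cast_mod a 1 ha]
        push_cast
        linear_combination (norm := (ring_nf; reduce_mod_char)) this))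
  intro a b hab
  have := hf a b hab
  rw [this, hz a (by omega), hz b (by omega), hz _ hab]; simp

end Pool.Agent.H.MP_7dfbfb_co
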