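import Pool.Agent.H.MP_7dfbfb_co.C
import Pool.Agent.H.MP_7dfbfb_co.D

set_option autoImplicit false

namespace Pool.Agent.H.MP_7dfbfb_co
open Finset Equiv Matrix

variable {n : ℕ}

def mkW (i j : ℤ) (h : 0 ≤ j ∧ j ≤ i ∧ i ≤ (n : ℤ) - 1) : W n := ⟨(i, j), h⟩

def YY {R : Type} [Zero R] (x : W n → R) (i j : ℤ) : R :=
  if h : 0 ≤ j ∧ j ≤ i ∧ i ≤ (n : ℤ) - 1 then x (mkW i j h) else 0

def XX {R : Type} [Zero R] (x : W n → R) (a b : ℕ) : R := YY x ((a : ℤ) + b - 2) ((a : ℤ) - 1)

lemma sum_dl {R : Type} [CommRing R] (x : W n → R) (i j : ℤ) :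
    ∑ v, ((dl v i j : ℤ) : R) * x v = YY x i j := by
  unfold YY
  split_ifs with h
  · rw [sum_eq_single (mkW i j h)]
    · unfold dl; rw [if_pos ⟨rfl, rfl⟩]; simp
    · intro v _ hv
      unfold dl
      rw [if_neg (c := v.1.1 = i ∧ v.1.2 = j) (fun h' => hv ((eq_iff _ _).2 h'))]; simp
    · intro h'; exact absurd (mem_univ _) h'
  · refine sum_eq_zero fun v _ => ?_
    unfold dl
    rw [if_neg]
    · simp
    · rintro ⟨rfl, rfl⟩; exact h v.2

def vt (a b : ℕ) (h : a + b + 3 ≤ n + 2) : W n := ⟨((a : ℤ) + b, (a : ℤ)), by simp only; omega⟩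

lemma vt_surj (v : W n) : ∃ (a b : ℕ) (h : a + b + 3 ≤ n + 2), v = vt a b h := by
  have := v.2
  refine ⟨v.1.2.toNat, (v.1.1 - v.1.2).toNat, by omega, ?_⟩
  rw [eq_iff]
  simp only [vt]
  omega

lemma XX_vt {R : Type} [Zero R] (x : W n → R) (a b : ℕ) (h : a + b + 3 ≤ n + 2) :
    XX x (a + 1) (b + 1) = x (vt a b h) := by
  unfold XX YY
  rw [dif_pos (by omega)]
  congr 1
  rw [eq_iff]
  simp only [vt, mkW]
  omega

lemma XX_out {R : Type} [Zero R] (x : W n → R) (a b : ℕ) (h : a = 0 ∨ b = 0 ∨ a + b = n + 2) :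
    XX x a b = 0 := by
  unfold XX YY
  rw [dif_neg (by omega)]

lemma mulVec_vt {R : Type} [CommRing R] (x : W n → R) (a b : ℕ) (h : a + b + 3 ≤ n + 2) :
    ((KK n).map (Int.cast : ℤ → R) *ᵥ x) (vt a b h) =
      XX x (a + 2) b - XX x a (b + 2) + (ss a : ℤ) * XX x (a + 1) (b + 2)
        - (ss a : ℤ) * XX x (a + 2) (b + 1) - (ss a : ℤ) * XX x (a + 1) b
        - (ss a : ℤ) * XX x a (b + 1) := by
  unfold XX
  simp only [← sum_dl, mulVec, dotProduct, map_apply, mul_sum, ← sum_add_distrib,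
    ← sum_sub_distrib]
  refine sum_congr rfl fun v _ => ?_
  unfold KK
  have e1 : (vt a b h).1.1 = (a : ℤ) + b := rfl
  have e2 : (vt a b h).1.2 = (a : ℤ) := rfl
  rw [e1, e2]
  push_cast
  ring_nf

lemma ss_nat (a : ℕ) : a % 2 = 0 ∧ ss a = 1 ∨ a % 2 = 1 ∧ ss a = -1 := by
  unfold ss; split_ifs <;> omega

lemma four (h4 : n % 4 = 0 ∨ n % 4 = 3) (x : W n → ℤ) (hx : ∀ v, (4 : ℤ) ∣ (KK n *ᵥ x) v)
    (v : W n) : (2 : ℤ) ∣ x v := by
  obtain ⟨a, b, h, rfl⟩ := vt_surj v
  rw [two_dvd_iff, ← XX_vt x]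
  refine mod_four (XX x) (n + 2) (by omega) (by omega) (fun b => XX_out _ _ _ (by simp))
    (fun b => XX_out _ _ _ (by simp)) (fun a b hab => XX_out _ _ _ (by simp [hab]))
    (fun a b hab => ⟨ss a, ss_nat a, ?_⟩) _ _ (by omega)
  have h1 := mulVec_vt x a b hab
  have h2 : (KK n).map (Int.cast : ℤ → ℤ) = KK n := by ext; simp
  rw [h2] at h1
  have h3 := hx (vt a b hab)
  rw [h1] at h3
  simpa using h3

lemma ker_iff (y : W n → ZMod 2) :
    y ∈ LinearMap.ker (Matrix.mulVecLin ((KK n).map (Int.cast : ℤ → ZMod 2))) ↔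
      ∀ a b, a + b + 3 ≤ n + 2 → hex (XX y) a b = 0 := by
  have key : ∀ a b (h : a + b + 3 ≤ n + 2),
      ((KK n).map (Int.cast : ℤ → ZMod 2) *ᵥ y) (vt a b h) = hex (XX y) a b := by
    intro a b h
    rw [mulVec_vt]
    unfold hex
    rcases ss_nat a with ⟨_, h1⟩ | ⟨_, h1⟩ <;> rw [h1] <;> push_cast <;>
      linear_combination (norm := (ring_nf; reduce_mod_char))
  rw [LinearMap.mem_ker, mulVecLin_apply]
  constructor
  · intro h a b hab
    rw [← key a b hab, h]; rfl
  · intro h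
    funext v
    obtain ⟨a, b, hab, rfl⟩ := vt_surj v
    rw [key, h a b hab]; rfl

def ec (h o d : ℕ) (k : ℕ) : (Fin d → ZMod 2) →ₗ[ZMod 2] ZMod 2 :=
  if hh : o ≤ min k (h - k) ∧ min k (h - k) - o < d then LinearMap.proj ⟨_, hh.2⟩ else 0

lemma ec_symm (h o d a b : ℕ) (hab : a + b = h) : ec h o d a = ec h o d b := by
  unfold ec
  have : min a (h - a) = min b (h - b) := by omega
  simp only [this]

lemma ec_zero (h o d k : ℕ) (hk : min k (h - k) < o) : ec h o d k = 0 := by
  unfold ec; rw [dif_neg (by omega)]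

def Phi (n o d : ℕ) : (Fin d → ZMod 2) →ₗ[ZMod 2] (W n → ZMod 2) :=
  LinearMap.pi fun v => ec (n + 2) o d (v.1.2.toNat + 1) +
    ec (n + 2) o d ((v.1.1 - v.1.2).toNat + 1) + ec (n + 2) o d (v.1.1.toNat + 2)

lemma Phi_vt (o d : ℕ) (c : Fin d → ZMod 2) (a b : ℕ) (h : a + b + 3 ≤ n + 2) :
    Phi n o d c (vt a b h) = ec (n + 2) o d (a + 1) c + ec (n + 2) o d (b + 1) c +
      ec (n + 2) o d (a + 1 + (b + 1)) c := by
  have e1 : (vt a b h).1.2.toNat + 1 = a + 1 := by simp [vt]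
  have e2 : ((vt a b h).1.1 - (vt a b h).1.2).toNat + 1 = b + 1 := by simp [vt]
  have e3 : (vt a b h).1.1.toNat + 2 = a + 1 + (b + 1) := by simp only [vt]; omega
  simp only [Phi, LinearMap.pi_apply, e1, e2, e3, LinearMap.add_apply]

lemma XX_Phi (o d : ℕ) (ho : 1 ≤ o) (c : Fin d → ZMod 2) (a b : ℕ) (h : a + b ≤ n + 2) :
    XX (Phi n o d c) a b = ec (n + 2) o d a c + ec (n + 2) o d b c + ec (n + 2) o d (a + b) c := by
  by_cases h1 : a = 0 ∨ b = 0 ∨ a + b = n + 2
  · rw [XX_out _ _ _ h1]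
    rcases h1 with rfl | rfl | h1
    · rw [ec_zero _ _ _ 0 (by omega)]; simp [CharTwo.add_self_eq_zero]
    · rw [ec_zero _ _ _ 0 (by omega)]; simp [CharTwo.add_self_eq_zero]
    · rw [ec_zero _ _ _ (a + b) (by omega), ec_symm _ _ _ a b h1]
      simp [CharTwo.add_self_eq_zero]
  · obtain ⟨a, rfl⟩ : ∃ k, a = k + 1 := ⟨a - 1, by omega⟩
    obtain ⟨b, rfl⟩ : ∃ k, b = k + 1 := ⟨b - 1, by omega⟩
    rw [XX_vt _ a b (by omega), Phi_vt]

lemma dim_ker (o d : ℕ) (ho : n % 2 = 0 ∧ o = 2 ∨ n % 2 = 1 ∧ o = 1) (hd : d + o = n / 2 + 2) :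
    Module.finrank (ZMod 2)
      (LinearMap.ker (Matrix.mulVecLin ((KK n).map (Int.cast : ℤ → ZMod 2)))) = d := by
  have : Fact (Nat.Prime 2) := ⟨Nat.prime_two⟩
  have hr : LinearMap.range (Phi n o d) =
      LinearMap.ker (Matrix.mulVecLin ((KK n).map (Int.cast : ℤ → ZMod 2))) := by
    ext y
    rw [ker_iff]
    constructor
    · rintro ⟨c, rfl⟩ a b hab
      unfold hex
      rw [XX_Phi o d (by omega) c _ _ (by omega), XX_Phi o d (by omega) c _ _ (by omega),
        XX_Phi o d (by omega) c _ _ (by omega), XX_Phi o d (by omega) c _ _ (by omega),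
        XX_Phi o d (by omega) c _ _ (by omega), XX_Phi o d (by omega) c _ _ (by omega),
        show a + 2 + b = a + b + 2 by omega, show a + (b + 2) = a + b + 2 by omega,
        show a + 1 + (b + 2) = a + b + 3 by omega, show a + 2 + (b + 1) = a + b + 3 by omega,
        show a + 1 + b = a + b + 1 by omega, show a + (b + 1) = a + b + 1 by omega]
      linear_combination (norm := (ring_nf; reduce_mod_char))
    · intro hy
      obtain ⟨E, hE0, hE1, hEs, hE⟩ := struct1 (XX y) (n + 2) (by omega)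
        (fun b => XX_out _ _ _ (by simp)) (fun b => XX_out _ _ _ (by simp))
        (fun a b hab => XX_out _ _ _ (by simp [hab])) hy
      have h1 : ∀ k, k ≤ n + 2 → ec (n + 2) o d k (fun i => E (i + o)) = E k := by
        intro k hk
        have h2 : E k = E (min k (n + 2 - k)) := by
          rcases min_choice k (n + 2 - k) with h | h <;> rw [h]
          exact hEs _ _ (by omega)
        unfold ec
        split_ifs with hh
        · rw [h2, LinearMap.proj_apply]
          simp only [Nat.sub_add_cancel hh.1]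
        · rw [h2]
          have h3 : min k (n + 2 - k) = 0 ∨ (min k (n + 2 - k) = 1 ∧ n % 2 = 0) := by omega
          rcases h3 with h3 | h3
          · rw [h3, hE0]; rfl
          · rw [h3.1, hE1 (by omega)]; rfl
      refine ⟨fun i => E (i + o), funext fun v => ?_⟩
      obtain ⟨a, b, hab, rfl⟩ := vt_surj v
      rw [Phi_vt, h1 _ (by omega), h1 _ (by omega), h1 _ (by omega), ← XX_vt y, hE _ _ (by omega)]
  have hi : Function.Injective (Phi n o d) := by
    rw [← LinearMap.ker_eq_bot, LinearMap.ker_eq_bot']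
    intro c hc
    have h1 : ∀ k, k ≤ n + 2 → ec (n + 2) o d k c = k * ec (n + 2) o d 1 c := by
      intro k
      induction k with
      | zero => intro _; rw [ec_zero _ _ _ 0 (by omega)]; simp
      | succ k ih =>
        intro hk
        have e1 := XX_Phi (n := n) o d (by omega) c 1 k (by omega)
        have e2 : XX (0 : W n → ZMod 2) 1 k = 0 := by unfold XX YY; split_ifs <;> rfl
        rw [hc, e2, add_comm 1 k] at e1
        have e3 := ih (by omega)
        push_cast
        linear_combination (norm := (ring_nf; reduce_mod_char)) e1 + e3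
    have h2 : ec (n + 2) o d 1 c = 0 := by
      rcases ho with ho | ho
      · rw [ec_zero _ _ _ 1 (by omega)]; rfl
      · have := h1 (n + 2) le_rfl
        rw [ec_zero _ _ _ (n + 2) (by omega), cast_mod (n + 2) 1 (by omega)] at this
        simpa using this.symm
    funext i
    have h3 := h1 (i + o) (by have := i.2; omega)
    rw [h2, mul_zero] at h3
    have h4 : min (i + o) (n + 2 - (i + o)) = i + o := by have := i.2; omega
    unfold ec at h3
    rw [dif_pos (by have := i.2; omega), LinearMap.proj_apply] at h3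
    refine Eq.trans ?_ h3
    congr 1
    exact Fin.ext (by simp only; omega)
  rw [← hr, LinearMap.finrank_range_of_inj hi]
  simp

theorem main (n : ℕ) (h4 : n % 4 = 0 ∨ n % 4 = 3) :
    Nat.card {H : (TG n).Subgraph // H.IsPerfectMatching} ≠ 0 ∧
      padicValNat 2 (Nat.card {H : (TG n).Subgraph // H.IsPerfectMatching}) = (n + 1) / 4 := by
  have hdim : Module.finrank (ZMod 2)
      (LinearMap.ker (Matrix.mulVecLin ((KK n).map (Int.cast : ℤ → ZMod 2)))) =
      2 * ((n + 1) / 4) := by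
    rcases h4 with h | h
    · exact dim_ker 2 _ (by omega) (by omega)
    · exact dim_ker 1 _ (by omega) (by omega)
  obtain ⟨c, hc, h⟩ := val_Pf (KK n) KK_skew _ hdim (four h4)
  rw [Pf_KK] at h
  set M := Nat.card {H : (TG n).Subgraph // H.IsPerfectMatching}
  have h1 : M = 2 ^ ((n + 1) / 4) * c.natAbs := by
    have := congrArg Int.natAbs h
    simpa [Int.natAbs_mul, Int.natAbs_pow] using this
  have h2 : Odd c.natAbs := Int.natAbs_odd.2 hc
  have h3 : c.natAbs ≠ 0 := by rintro h0; rw [h0] at h2; simp at h2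
  have : Fact (Nat.Prime 2) := ⟨Nat.prime_two⟩
  refine ⟨by rw [h1]; positivity, ?_⟩
  rw [h1, padicValNat.mul (by positivity) h3, padicValNat.prime_pow,
    padicValNat.eq_zero_of_not_dvd (by rw [← even_iff_two_dvd]; exact Nat.not_even_iff_odd.2 h2),
    add_zero]

end Pool.Agent.H.MP_7dfbfb_co
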